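import Mathlib
import Pool.Agent.Helper133.Brouwer

/-!
# The Miranda property of the Hilbert cube
-/

set_option autoImplicit false

namespace Pool.Agent.U540.FD

open Set Filter Topology

/-- The Hilbert cube. -/
abbrev HC : Type := ℕ × ℕ → unitInterval

theorem miranda_fin (w : ℕ × ℕ → HC → ℝ) (hw : ∀ i, Continuous (w i))
    (h0 : ∀ i z, z i = 0 → 0 < w i z) (h1 : ∀ i z, z i = 1 → w i z < 0) (F : Finset (ℕ × ℕ)) :
    ∃ z, ∀ i ∈ F, w i z = 0 := by
  classical
  let ext : (F → ℝ) → HC := fun y i =>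
    if h : i ∈ F then Set.projIcc 0 1 zero_le_one (y ⟨i, h⟩) else 0
  have hext : Continuous ext := by
    refine continuous_pi fun i => ?_
    simp only [ext]
    split_ifs with h
    · exact continuous_projIcc.comp (continuous_apply _)
    · exact continuous_const
  let h : (F → ℝ) → (F → ℝ) := fun y i => max 0 (min 1 (y i + w i.1 (ext y)))
  have hh : Continuous h := by
    refine continuous_pi fun i => ?_
    exact continuous_const.max (continuous_const.min
      ((continuous_apply i).add ((hw _).comp hext)))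
  have hb : ∀ y, ‖h y‖ ≤ 1 := by
    intro y
    rw [pi_norm_le_iff_of_nonneg zero_le_one]
    intro i
    rw [Real.norm_eq_abs, abs_le]
    constructor
    · have : (0 : ℝ) ≤ h y i := le_max_left _ _
      linarith
    · exact max_le zero_le_one (min_le_left _ _)
  obtain ⟨y, hy⟩ := Pool.Agent.Helper133.Brouwer.brouwer h hh 1 hb
  refine ⟨ext y, fun i hi => ?_⟩
  have h2 : max 0 (min 1 (y ⟨i, hi⟩ + w i (ext y))) = y ⟨i, hi⟩ := congrFun hy ⟨i, hi⟩
  have h3 : 0 ≤ y ⟨i, hi⟩ := by rw [← h2]; exact le_max_left _ _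
  have h4 : y ⟨i, hi⟩ ≤ 1 := by rw [← h2]; exact max_le zero_le_one (min_le_left _ _)
  have h5 : ext y i = Set.projIcc 0 1 zero_le_one (y ⟨i, hi⟩) := by simp only [ext, dif_pos hi]
  rcases lt_trichotomy (w i (ext y)) 0 with h6 | h6 | h6
  · exfalso
    have h7 : y ⟨i, hi⟩ = 0 := by
      by_contra h8
      have h9 : 0 < y ⟨i, hi⟩ := lt_of_le_of_ne h3 (Ne.symm h8)
      rcases max_choice 0 (min 1 (y ⟨i, hi⟩ + w i (ext y))) with h10 | h10
      · rw [h10] at h2; linarith
      · rw [h10] at h2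
        have := min_le_right 1 (y ⟨i, hi⟩ + w i (ext y))
        linarith
    have h8 := h0 i (ext y) (by rw [h5, h7]; exact Set.projIcc_left _)
    linarith
  · exact h6
  · exfalso
    have h7 : y ⟨i, hi⟩ = 1 := by
      by_contra h8
      have h9 : y ⟨i, hi⟩ < 1 := lt_of_le_of_ne h4 h8
      have h10 : y ⟨i, hi⟩ < min 1 (y ⟨i, hi⟩ + w i (ext y)) := lt_min h9 (by linarith)
      have h11 := le_max_right 0 (min 1 (y ⟨i, hi⟩ + w i (ext y)))
      linarith
    have h8 := h1 i (ext y) (by rw [h5, h7]; exact Set.projIcc_right _)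
    linarith

theorem miranda (w : ℕ × ℕ → HC → ℝ) (hw : ∀ i, Continuous (w i))
    (h0 : ∀ i z, z i = 0 → 0 < w i z) (h1 : ∀ i z, z i = 1 → w i z < 0) :
    ∃ z, ∀ i, w i z = 0 := by
  have h2 := isCompact_univ.inter_iInter_nonempty (X := HC) (fun i => {z | w i z = 0})
    (fun i => isClosed_eq (hw i) continuous_const) (fun F => by
      obtain ⟨z, hz⟩ := miranda_fin w hw h0 h1 F
      exact ⟨z, mem_univ _, mem_iInter₂.2 hz⟩)
  obtain ⟨z, -, hz⟩ := h2
  exact ⟨z, fun i => mem_iInter.1 hz i⟩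

end Pool.Agent.U540.FD
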