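import Mathlib

/-!
# From the covering dimension to maps missing a point of the cube
-/

set_option autoImplicit false

namespace Pool.Agent.U540.FD

open Set MeasureTheory

/-- A point of the open cube outside the affine spans of few vertices. -/
theorem exists_generic (n l : ℕ) (v : Fin l → (Fin (n + 1) → ℝ)) :
    ∃ c : Fin (n + 1) → ℝ, (∀ i, 0 < c i ∧ c i < 1) ∧
      ∀ T : Finset (Fin l), T.card ≤ n + 1 → c ∉ affineSpan ℝ (v '' (T : Set (Fin l))) := by
  classical
  have h1 : ∀ T : Finset (Fin l), T.card ≤ n + 1 →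
      volume (affineSpan ℝ (v '' (T : Set (Fin l))) : Set (Fin (n + 1) → ℝ)) = 0 := by
    intro T hT
    refine Measure.addHaar_affineSubspace _ _ ?_
    intro htop
    rcases T.eq_empty_or_nonempty with rfl | hne
    · simp at htop
    · obtain ⟨k, hk⟩ : ∃ k, T.card = k + 1 :=
        ⟨T.card - 1, by have := hne.card_pos; omega⟩
      have h2 := finrank_vectorSpan_image_finset_le ℝ v T hk
      rw [Finset.coe_image, ← direction_affineSpan, htop, AffineSubspace.direction_top,
        finrank_top] at h2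
      simp at h2
      omega
  let O : Set (Fin (n + 1) → ℝ) := Set.pi univ fun _ => Ioo 0 1
  have hO : IsOpen O := isOpen_set_pi finite_univ fun _ _ => isOpen_Ioo
  have hOn : O.Nonempty := ⟨fun _ => 1 / 2, fun i _ => by constructor <;> norm_num⟩
  have hpos : 0 < volume O := hO.measure_pos volume hOn
  let B : Set (Fin (n + 1) → ℝ) := ⋃ T ∈ {T : Finset (Fin l) | T.card ≤ n + 1},
    (affineSpan ℝ (v '' (T : Set (Fin l))) : Set (Fin (n + 1) → ℝ))
  have hB : volume B = 0 := by
    rw [measure_biUnion_null_iff (to_countable _)]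
    exact fun T hT => h1 T hT
  obtain ⟨c, hc, hcB⟩ : (O \ B).Nonempty := by
    by_contra h
    rw [not_nonempty_iff_eq_empty, sdiff_eq_empty] at h
    have := measure_mono (μ := volume) h
    rw [hB] at this
    exact absurd hpos (not_lt.2 this)
  refine ⟨c, fun i => hc i (mem_univ i), fun T hT hcT => hcB (mem_biUnion (x := T) hT hcT)⟩

theorem dim_map {A : Type} [TopologicalSpace A] (n : ℕ)
    (hdim : ∀ (m : ℕ) (U : Fin m → Set A),
      (∀ i, ∃ f : A → ℝ, Continuous f ∧ U i = {x | f x ≠ 0}) →
      (⋃ i, U i) = Set.univ →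
      ∃ (l : ℕ) (V : Fin l → Set A),
        (∀ j, ∃ f : A → ℝ, Continuous f ∧ V j = {x | f x ≠ 0}) ∧
        (⋃ j, V j) = Set.univ ∧
        (∀ j, ∃ i, V j ⊆ U i) ∧
        ∀ x, {j : Fin l | x ∈ V j}.ncard ≤ n + 1)
    (φ : Fin (n + 1) → A → ℝ) (hφ : ∀ i, Continuous (φ i)) :
    ∃ (G : Fin (n + 1) → A → ℝ) (c : Fin (n + 1) → ℝ), (∀ i, Continuous (G i)) ∧
      (∀ i, 0 < c i ∧ c i < 1) ∧ (∀ i x, φ i x ≤ 1 / 3 → G i x = 0) ∧
      (∀ i x, 2 / 3 ≤ φ i x → G i x = 1) ∧ ∀ x, ∃ i, G i x ≠ c i := by
  classical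
  let e : Fin (Fintype.card (Fin (n + 1) → Bool)) ≃ (Fin (n + 1) → Bool) :=
    (Fintype.equivFin _).symm
  let F : (Fin (n + 1) → Bool) → A → ℝ := fun σ x =>
    ∏ i, max 0 (if σ i then φ i x - 1 / 3 else 2 / 3 - φ i x)
  have hF : ∀ σ, Continuous (F σ) := by
    intro σ
    refine continuous_finsetProd _ fun i _ => continuous_const.max ?_
    split_ifs
    · exact (hφ i).sub continuous_const
    · exact continuous_const.sub (hφ i)
  have hF1 : ∀ σ x, F σ x ≠ 0 → ∀ i, (σ i = true → 1 / 3 < φ i x) ∧
      (σ i = false → φ i x < 2 / 3) := by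
    intro σ x h i
    have h1 := Finset.prod_ne_zero_iff.1 h i (Finset.mem_univ i)
    constructor
    · intro hi
      rw [if_pos hi] at h1
      by_contra h2
      exact h1 (max_eq_left (by linarith))
    · intro hi
      rw [if_neg (by simp [hi])] at h1
      by_contra h2
      exact h1 (max_eq_left (by linarith))
  have hF2 : ∀ x, ∃ σ, F σ x ≠ 0 := by
    intro x
    refine ⟨fun i => decide (1 / 2 ≤ φ i x), Finset.prod_ne_zero_iff.2 fun i _ => ?_⟩
    refine ne_of_gt ?_
    by_cases h : 1 / 2 ≤ φ i x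
    · simp only [h, decide_true, if_true]
      exact lt_max_of_lt_right (by linarith)
    · simp only [h, decide_false, Bool.false_eq_true, if_false]
      exact lt_max_of_lt_right (by linarith)
  obtain ⟨l, V, hV1, hV2, hV3, hV4⟩ := hdim _ (fun j => {x | F (e j) x ≠ 0})
    (fun j => ⟨F (e j), hF _, rfl⟩) (by
      rw [eq_univ_iff_forall]
      intro x
      obtain ⟨σ, hσ⟩ := hF2 x
      refine mem_iUnion.2 ⟨e.symm σ, ?_⟩
      show F (e (e.symm σ)) x ≠ 0
      rw [e.apply_symm_apply]
      exact hσ)
  choose h hh1 hh2 using hV1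
  choose s hs using hV3
  let v : Fin l → (Fin (n + 1) → ℝ) := fun j i => if e (s j) i then 1 else 0
  obtain ⟨c, hc1, hc2⟩ := exists_generic n l v
  let S : A → ℝ := fun x => ∑ j, |h j x|
  have hS : Continuous S := continuous_finsetSum _ fun j _ => (hh1 j).abs
  have hSp : ∀ x, 0 < S x := by
    intro x
    obtain ⟨j, hj⟩ := mem_iUnion.1 (hV2 ▸ mem_univ x : x ∈ ⋃ j, V j)
    rw [hh2 j] at hj
    exact Finset.sum_pos' (fun _ _ => abs_nonneg _) ⟨j, Finset.mem_univ _, abs_pos.2 hj⟩
  let G : Fin (n + 1) → A → ℝ := fun i x => ∑ j, (|h j x| / S x) * v j i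
  have hact : ∀ j x, h j x ≠ 0 → ∀ i, (e (s j) i = true → 1 / 3 < φ i x) ∧
      (e (s j) i = false → φ i x < 2 / 3) := by
    intro j x hj i
    have : x ∈ V j := by rw [hh2 j]; exact hj
    exact hF1 _ x (hs j this) i
  have hsum : ∀ x, ∑ j, |h j x| / S x = 1 := by
    intro x
    rw [← Finset.sum_div]
    exact div_self (hSp x).ne'
  refine ⟨G, c, ?_, hc1, ?_, ?_, ?_⟩
  · intro i
    exact continuous_finsetSum _ fun j _ =>
      (((hh1 j).abs).div hS fun x => (hSp x).ne').mul continuous_const
  · intro i x hx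
    refine Finset.sum_eq_zero fun j _ => ?_
    by_cases hj : h j x = 0
    · rw [hj]; simp
    · have h1 : e (s j) i = false := by
        by_contra h2
        have h3 := (hact j x hj i).1 (by simpa using h2)
        linarith
      simp only [v, h1]
      simp
  · intro i x hx
    rw [← hsum x]
    refine Finset.sum_congr rfl fun j _ => ?_
    by_cases hj : h j x = 0
    · rw [hj]; simp
    · have h1 : e (s j) i = true := by
        by_contra h2
        have h3 := (hact j x hj i).2 (by simpa using h2)
        linarith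
      simp only [v, h1]
      simp
  · intro x
    by_contra hcon
    push Not at hcon
    let T : Finset (Fin l) := Finset.univ.filter fun j => h j x ≠ 0
    have hT : T.card ≤ n + 1 := by
      have h1 := hV4 x
      have h2 : {j : Fin l | x ∈ V j} = (T : Set (Fin l)) := by
        ext j
        simp only [T, mem_ofPred_eq, Finset.coe_filter, Finset.mem_univ, true_and]
        rw [hh2 j]
        rfl
      rw [h2, Set.ncard_coe_finset] at h1
      exact h1
    refine hc2 T hT ?_
    have h1 : c = ∑ j ∈ T, (|h j x| / S x) • v j := by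
      have h2 : c = ∑ j, (|h j x| / S x) • v j := by
        funext i
        rw [← hcon i, Finset.sum_apply]
        rfl
      rw [h2]
      symm
      refine Finset.sum_subset (Finset.subset_univ _) fun j _ hj => ?_
      have : h j x = 0 := by
        by_contra h3
        exact hj (Finset.mem_filter.2 ⟨Finset.mem_univ _, h3⟩)
      rw [this]; simp
    rw [h1]
    have hconv := (affineSpan ℝ (v '' (T : Set (Fin l)))).convex
    refine hconv.sum_mem (fun j _ => div_nonneg (abs_nonneg _) (hSp x).le) ?_ fun j hj =>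
      subset_affineSpan ℝ _ ⟨j, hj, rfl⟩
    rw [← hsum x]
    refine Finset.sum_subset (Finset.subset_univ _) fun j _ hj => ?_
    have : h j x = 0 := by
      by_contra h3
      exact hj (Finset.mem_filter.2 ⟨Finset.mem_univ _, h3⟩)
    rw [this]; simp

end Pool.Agent.U540.FD
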