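import Pool.Agent.U540.FD.Base

/-!
# Closed sets with full slices contain uncountably many points of the graph of `f`
-/

set_option autoImplicit false

namespace Pool.Agent.U540.FD

open Set Filter Topology TopologicalSpace Cardinal

variable {Q : Type} [MetricSpace Q] [CompactSpace Q] [Nonempty Q]

theorem exists_fix (Φ : ℕ → (ℕ → Al) → Al)
    (hΦ : ∀ n x y, (∀ i < n, x i = y i) → Φ n x = Φ n y) : ∃ x : ℕ → Al, ∀ n, x n = Φ n x := by
  let X : ℕ → (ℕ → Al) := fun k => Nat.rec (fun _ => (0, false)) (fun _ x n => Φ n x) k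
  have hX : ∀ k n, X (k + 1) n = Φ n (X k) := fun _ _ => rfl
  have h1 : ∀ k, ∀ n < k, X (k + 1) n = X k n := by
    intro k
    induction k with
    | zero => intro n hn; omega
    | succ k ih =>
      intro n hn
      rw [hX k, hX (k + 1)]
      exact hΦ n _ _ fun i hi => ih i (by omega)
  have h2 : ∀ k l n, n < k → k ≤ l → X l n = X k n := by
    intro k l n hn hkl
    induction l, hkl using Nat.le_induction with
    | base => rfl
    | succ l hl ih => rw [h1 l n (by omega), ih]
  refine ⟨fun n => X (n + 1) n, fun n => ?_⟩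
  show X (n + 1) n = _
  rw [hX]
  refine hΦ n _ _ fun i hi => ?_
  exact h2 (i + 1) n i (by omega) (by omega)

theorem exists_embed : ∃ ι : (ℕ → Bool) → ℝ, Continuous ι ∧ Function.Injective ι :=
  ⟨fun x => (cantorSetHomeomorphNatToBool.symm x : ℝ),
    continuous_subtype_val.comp cantorSetHomeomorphNatToBool.symm.continuous,
    Subtype.val_injective.comp cantorSetHomeomorphNatToBool.symm.injective⟩

/-- A closed set with full slices meets the graph of `f` in an uncountable set. -/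
theorem meet {M : Set ((ℕ → Al) × Q)} (hM : IsClosed M) (hs : ∀ x, ∃ z, (x, z) ∈ M) :
    ¬ {x : E Q | (x.1, f x) ∈ M}.Countable := by
  classical
  obtain ⟨θ, hθ, hθs⟩ := exists_nat_bool_continuous_surjective_of_compact Q
  obtain ⟨ι, hι, hιi⟩ := exists_embed
  -- the canonical point of a closed set
  have hmin : ∀ A : Set Q, ∃ t : ℕ → Bool, IsClosed A → A.Nonempty →
      θ t ∈ A ∧ ∀ s, θ s ∈ A → ι t ≤ ι s := by
    intro A
    by_cases h : IsClosed A ∧ A.Nonempty
    · obtain ⟨z, hz⟩ := h.2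
      obtain ⟨s, rfl⟩ := hθs z
      obtain ⟨t, ht, hm⟩ := ((h.1.preimage hθ).isCompact).exists_isMinOn ⟨s, hz⟩ hι.continuousOn
      exact ⟨t, fun _ _ => ⟨ht, fun s hs => hm hs⟩⟩
    · exact ⟨fun _ => false, fun h1 h2 => absurd ⟨h1, h2⟩ h⟩
  choose tm htm using hmin
  let K : ℕ → (ℕ → Al) → Set Q := fun n x => closure {z | ∃ x', (∀ i < n, x' i = x i) ∧ (x', z) ∈ M}
  have hKc : ∀ n x, IsClosed (K n x) := fun _ _ => isClosed_closure
  have hKn : ∀ n x, (K n x).Nonempty := by
    intro n x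
    obtain ⟨z, hz⟩ := hs x
    exact ⟨z, subset_closure ⟨x, fun _ _ => rfl, hz⟩⟩
  have hKe : ∀ n x y, (∀ i < n, x i = y i) → K n x = K n y := by
    intro n x y h
    simp only [K]
    congr 1
    ext z
    constructor
    · rintro ⟨x', h1, h2⟩
      exact ⟨x', fun i hi => (h1 i hi).trans (h i hi), h2⟩
    · rintro ⟨x', h1, h2⟩
      exact ⟨x', fun i hi => (h1 i hi).trans (h i hi).symm, h2⟩
  have hKa : ∀ n m x, n ≤ m → K m x ⊆ K n x := by
    intro n m x h
    refine closure_mono ?_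
    rintro z ⟨x', h1, h2⟩
    exact ⟨x', fun i hi => h1 i (by omega), h2⟩
  have hKi : ∀ x z, (∀ n, z ∈ K n x) → (x, z) ∈ M := by
    intro x z h
    rw [← hM.closure_eq, mem_closure_iff_nhds]
    intro W hW
    obtain ⟨A, hA, B, hB, hAB⟩ := mem_nhds_prod_iff.1 hW
    obtain ⟨t, ⟨y, n, rfl⟩, ht1, ht2⟩ :=
      (PiNat.isTopologicalBasis_cylinders (fun _ => Al)).mem_nhds_iff.1 hA
    obtain ⟨z', hz', x', h1, h2⟩ := mem_closure_iff_nhds.1 (h n) B hB
    refine ⟨(x', z'), hAB ⟨ht2 ?_, hz'⟩, h2⟩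
    rw [PiNat.mem_cylinder_iff] at ht1 ⊢
    intro i hi
    exact (h1 i hi).trans (ht1 i hi)
  have hlet : ∀ (z : Q) (n : ℕ), ∃ a : ℕ, dist (denseSeq Q a) z < 1 / ((n : ℝ) + 1) := by
    intro z n
    obtain ⟨a, ha⟩ := (denseRange_denseSeq Q).exists_dist_lt z (ε := 1 / ((n : ℝ) + 1))
      (by positivity)
    exact ⟨a, by rw [dist_comm]; exact ha⟩
  choose a ha using hlet
  have hx : ∀ d : ℕ → Bool, ∃ x : ℕ → Al, ∀ n, x n = (a (θ (tm (K n x))) n, d n) := by
    intro d
    refine exists_fix (fun n x => (a (θ (tm (K n x))) n, d n)) ?_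
    intro n x y h
    show (a (θ (tm (K n x))) n, d n) = (a (θ (tm (K n y))) n, d n)
    rw [hKe n x y h]
  choose x hx using hx
  have key : ∀ d, Tendsto (fun n => qs Q (x d n)) atTop (𝓝 (θ (tm {z | (x d, z) ∈ M}))) := by
    intro d
    have hMc : IsClosed {z | (x d, z) ∈ M} := hM.preimage (by fun_prop)
    obtain ⟨ht1, ht2⟩ := htm _ hMc (hs (x d))
    have hMK : ∀ n, {z | (x d, z) ∈ M} ⊆ K n (x d) := fun n z hz =>
      subset_closure ⟨x d, fun _ _ => rfl, hz⟩
    have hT : Tendsto (fun n => tm (K n (x d))) atTop (𝓝 (tm {z | (x d, z) ∈ M})) := by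
      refine isCompact_univ.tendsto_nhds_of_unique_mapClusterPt (by simp) ?_
      intro s _ hs'
      have h1 : ∀ C : Set (ℕ → Bool), IsClosed C → (∀ᶠ n in atTop, tm (K n (x d)) ∈ C) → s ∈ C := by
        intro C hC h2
        rw [← hC.closure_eq, mem_closure_iff_nhds]
        intro W hW
        have := (mapClusterPt_iff_frequently.1 hs' W hW).and_eventually h2
        obtain ⟨n, hn⟩ := this.exists
        exact ⟨_, hn⟩
      have h2 : (x d, θ s) ∈ M := by
        refine hKi _ _ fun n => ?_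
        refine h1 (θ ⁻¹' K n (x d)) ((hKc _ _).preimage hθ) ?_
        filter_upwards [eventually_ge_atTop n] with m hm
        exact hKa n m _ hm (htm _ (hKc m (x d)) (hKn m (x d))).1
      have h3 : ι s ≤ ι (tm {z | (x d, z) ∈ M}) := by
        refine h1 {s | ι s ≤ ι (tm {z | (x d, z) ∈ M})} (isClosed_le hι continuous_const) ?_
        exact Eventually.of_forall fun n =>
          (htm _ (hKc n (x d)) (hKn n (x d))).2 _ (hMK n ht1)
      exact hιi (le_antisymm h3 (ht2 s h2))
    have h4 : Tendsto (fun n => θ (tm (K n (x d)))) atTop (𝓝 (θ (tm {z | (x d, z) ∈ M}))) :=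
      (hθ.tendsto _).comp hT
    refine (tendsto_iff_of_dist ?_).2 h4
    refine squeeze_zero (fun _ => dist_nonneg) (fun n => ?_) tendsto_one_div_add_atTop_nhds_zero_nat
    have h5 : qs Q (x d n) = denseSeq Q (a (θ (tm (K n (x d)))) n) := by
      unfold qs
      rw [hx d n]
    rw [h5]
    exact (ha _ _).le
  intro hcon
  have hMm : ∀ d, θ (tm {z | (x d, z) ∈ M}) ∈ {z | (x d, z) ∈ M} := fun d =>
    (htm _ (hM.preimage (by fun_prop)) (hs (x d))).1
  let y : (ℕ → Bool) → {x : E Q | (x.1, f x) ∈ M} := fun d =>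
    ⟨⟨x d, _, key d⟩, by
      have h1 : f (⟨x d, _, key d⟩ : E Q) = _ := f_eq (key d)
      show ((x d, f (⟨x d, _, key d⟩ : E Q)) : (ℕ → Al) × Q) ∈ M
      rw [h1]
      exact hMm d⟩
  have hinj : Function.Injective y := by
    intro d d' h
    have h1 : x d = x d' := congrArg (fun w => w.1.1) h
    funext n
    have h2 : (x d n).2 = (x d' n).2 := by rw [h1]
    rw [hx d n, hx d' n] at h2
    exact h2
  have h1 := mk_le_of_injective hinj
  rw [← power_def, mk_bool, mk_nat, two_power_aleph0] at h1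
  exact absurd (hcon.le_aleph0) (not_le.2 (aleph0_lt_continuum.trans_le h1))

end Pool.Agent.U540.FD
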