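import Pool.Agent.U540.FD.Nor
import Pool.Agent.U540.FD.Meet
import Pool.Agent.U540.FD.Dim

/-!
# The square is not countable-dimensional
-/

set_option autoImplicit false

namespace Pool.Agent.U540.FD

open Set Filter Topology TopologicalSpace

theorem sepfun {Y : Type} [TopologicalSpace Y] [MetrizableSpace Y] (A B : Set Y)
    (hA : IsClosed A) (hB : IsClosed B) (hAn : A.Nonempty) (hBn : B.Nonempty) :
    ∃ w : Y → ℝ, Continuous w ∧ (∀ y, w y = 0 → (y ∈ A ↔ y ∈ B)) ∧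
      (∀ y ∈ B, y ∉ A → 0 < w y) ∧ (∀ y ∈ A, y ∉ B → w y < 0) := by
  let := metrizableSpaceMetric Y
  refine ⟨fun y => Metric.infDist y A - Metric.infDist y B,
    (Metric.continuous_infDist_pt A).sub (Metric.continuous_infDist_pt B), ?_, ?_, ?_⟩
  · intro y hy
    rw [hA.mem_iff_infDist_zero hAn, hB.mem_iff_infDist_zero hBn, sub_eq_zero.1 hy]
  · intro y h1 h2
    have h3 := (hA.notMem_iff_infDist_pos hAn).1 h2
    rw [hB.mem_iff_infDist_zero hBn] at h1
    show 0 < Metric.infDist y A - Metric.infDist y B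
    linarith
  · intro y h1 h2
    have h3 := (hB.notMem_iff_infDist_pos hBn).1 h2
    rw [hA.mem_iff_infDist_zero hAn] at h1
    show Metric.infDist y A - Metric.infDist y B < 0
    linarith

theorem closure_sub {Y : Type} [TopologicalSpace Y] {A : Set Y} {s : Set A} (hs : IsClosed s)
    {S : Set Y} (hS : ∀ q ∈ S, ∃ h : q ∈ A, (⟨q, h⟩ : A) ∈ s) {p : Y} (hp : p ∈ A)
    (h : p ∈ closure S) : (⟨p, hp⟩ : A) ∈ s := by
  have h1 : S ⊆ Subtype.val '' s := fun q hq => by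
    obtain ⟨h, h2⟩ := hS q hq
    exact ⟨⟨q, h⟩, h2, rfl⟩
  have h2 : (⟨p, hp⟩ : A) ∈ closure s := closure_subtype.2 (closure_mono h1 h)
  rwa [hs.closure_eq] at h2

variable {Q : Type} [MetricSpace Q] [CompactSpace Q] [Nonempty Q] {L : Lad Q}

/-- Twin pairs. -/
def TD (p : D Q × D Q) : Prop := p.1.1 = p.2.1 ∧ p.1.2 = false ∧ p.2.2 = true

/-- Word and value. -/
noncomputable def tau (p : D Q × D Q) : (ℕ → Al) × Q := (p.1.1.1, g p.1 p.2)

/-- The map back. -/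
def psi (y : (ℕ → Al) × Q) : M0 Q := ((y.1, false), (y.1, true), y.2)

theorem psi_tau {p : D Q × D Q} (h : TD p) : psi (tau p) = J p := by
  unfold psi tau J co
  rw [h.2.1, h.2.2, ← h.1]

omit [CompactSpace Q] [Nonempty Q] in
theorem continuous_psi : Continuous (psi (Q := Q)) := by
  unfold psi; fun_prop

theorem clT_of_tau {S : Set (D Q × D Q)} (hS : ∀ p ∈ S, TD p) {p : D Q × D Q} (hp : TD p)
    (h : tau p ∈ closure (tau '' S)) : p ∈ clT S := by
  show J p ∈ closure (J '' S)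
  rw [← psi_tau hp]
  refine map_mem_closure continuous_psi h ?_
  rintro _ ⟨q, hq, rfl⟩
  rw [psi_tau (hS q hq)]
  exact ⟨q, hq, rfl⟩

theorem ncd (κ : ℕ × ℕ → Q → ℝ) (hκ : ∀ i, Continuous (κ i)) (hκ0 : ∀ i, ∃ z, κ i z = 0)
    (hκ1 : ∀ i, ∃ z, κ i z = 1)
    (hmir : ∀ w : ℕ × ℕ → Q → ℝ, (∀ i, Continuous (w i)) → (∀ i z, κ i z = 0 → 0 < w i z) →
      (∀ i z, κ i z = 1 → w i z < 0) → ∃ z, ∀ i, w i z = 0)
    (hL : Catch L) (A : ℕ → Set (Sp L × Sp L)) (hA : (⋃ k, A k) = univ)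
    (hdim : ∀ k, ∃ n : ℕ,
        ∀ (m : ℕ) (U : Fin m → Set (A k)),
          (∀ i, ∃ f : A k → ℝ, Continuous f ∧ U i = {x | f x ≠ 0}) →
          (⋃ i, U i) = Set.univ →
          ∃ (l : ℕ) (V : Fin l → Set (A k)),
            (∀ j, ∃ f : A k → ℝ, Continuous f ∧ V j = {x | f x ≠ 0}) ∧
            (⋃ j, V j) = Set.univ ∧
            (∀ j, ∃ i, V j ⊆ U i) ∧
            ∀ x, {j : Fin l | x ∈ V j}.ncard ≤ n + 1) : False := by
  classical
  choose d hd using hdim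
  have h1 : ∀ k, ∃ (G : Fin (d k + 1) → A k → ℝ) (c : Fin (d k + 1) → ℝ),
      (∀ i, Continuous (G i)) ∧
      (∀ i, 0 < c i ∧ c i < 1) ∧ (∀ (i : Fin (d k + 1)) (x : A k),
        κ (k, (i : ℕ)) (tau (Q := Q) x.1).2 ≤ 1 / 3 → G i x = 0) ∧
      (∀ (i : Fin (d k + 1)) (x : A k),
        2 / 3 ≤ κ (k, (i : ℕ)) (tau (Q := Q) x.1).2 → G i x = 1) ∧ ∀ x, ∃ i, G i x ≠ c i := by
    intro k
    refine dim_map (d k) (hd k) (fun i x => κ (k, i) (tau (Q := Q) x.1).2) fun i => ?_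
    have h2 : Continuous (fun x : A k => g (e x.1.1) (e x.1.2)) :=
      continuous_g.comp continuous_subtype_val
    exact (hκ _).comp h2
  choose G c hG hc hG0 hG1 hGc using h1
  let P : ℕ × ℕ → Set (D Q × D Q) := fun i => {p | TD p ∧ ∃ (hi : i.2 < d i.1 + 1)
    (h : (p : Sp L × Sp L) ∈ A i.1), G i.1 ⟨i.2, hi⟩ ⟨p, h⟩ ≤ c i.1 ⟨i.2, hi⟩}
  let R : ℕ × ℕ → Set (D Q × D Q) := fun i => {p | TD p ∧ ∃ (hi : i.2 < d i.1 + 1)
    (h : (p : Sp L × Sp L) ∈ A i.1), c i.1 ⟨i.2, hi⟩ ≤ G i.1 ⟨i.2, hi⟩ ⟨p, h⟩}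
  let Ph : ℕ × ℕ → Set ((ℕ → Al) × Q) := fun i => closure (tau '' P i) ∪ {y | κ i y.2 = 0}
  let Rh : ℕ × ℕ → Set ((ℕ → Al) × Q) := fun i => closure (tau '' R i) ∪ {y | κ i y.2 = 1}
  have hPc : ∀ i, IsClosed (Ph i) := fun i => isClosed_closure.union
    (isClosed_eq ((hκ i).comp continuous_snd) continuous_const)
  have hRc : ∀ i, IsClosed (Rh i) := fun i => isClosed_closure.union
    (isClosed_eq ((hκ i).comp continuous_snd) continuous_const)
  have hPn : ∀ i, (Ph i).Nonempty := by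
    intro i
    obtain ⟨z, hz⟩ := hκ0 i
    exact ⟨(fun _ => (0, false), z), Or.inr hz⟩
  have hRn : ∀ i, (Rh i).Nonempty := by
    intro i
    obtain ⟨z, hz⟩ := hκ1 i
    exact ⟨(fun _ => (0, false), z), Or.inr hz⟩
  have hPk : ∀ i y, y ∈ closure (tau '' P i) → κ i y.2 ≤ 2 / 3 := by
    intro i y hy
    have h2 : IsClosed {y : (ℕ → Al) × Q | κ i y.2 ≤ 2 / 3} :=
      isClosed_le ((hκ i).comp continuous_snd) continuous_const
    refine closure_minimal ?_ h2 hy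
    rintro _ ⟨p, ⟨_, hi, h, hle⟩, rfl⟩
    by_contra hcon
    have h3 := hG1 i.1 ⟨i.2, hi⟩ ⟨p, h⟩ (le_of_lt (not_le.1 hcon))
    rw [h3] at hle
    exact absurd (hc i.1 ⟨i.2, hi⟩).2 (not_lt.2 hle)
  have hRk : ∀ i y, y ∈ closure (tau '' R i) → 1 / 3 ≤ κ i y.2 := by
    intro i y hy
    have h2 : IsClosed {y : (ℕ → Al) × Q | 1 / 3 ≤ κ i y.2} :=
      isClosed_le continuous_const ((hκ i).comp continuous_snd)
    refine closure_minimal ?_ h2 hy
    rintro _ ⟨p, ⟨_, hi, h, hle⟩, rfl⟩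
    by_contra hcon
    have h3 := hG0 i.1 ⟨i.2, hi⟩ ⟨p, h⟩ (le_of_lt (not_le.1 hcon))
    rw [h3] at hle
    exact absurd (hc i.1 ⟨i.2, hi⟩).1 (not_lt.2 hle)
  have hw : ∀ i, ∃ w : (ℕ → Al) × Q → ℝ, Continuous w ∧ (∀ y, w y = 0 → (y ∈ Rh i ↔ y ∈ Ph i)) ∧
      (∀ y ∈ Ph i, y ∉ Rh i → 0 < w y) ∧ (∀ y ∈ Rh i, y ∉ Ph i → w y < 0) := fun i =>
    sepfun _ _ (hRc i) (hPc i) (hRn i) (hPn i)
  choose w hwc hw0 hw1 hw2 using hw
  let M : Set ((ℕ → Al) × Q) := ⋂ i, {y | w i y = 0}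
  have hM : IsClosed M := isClosed_iInter fun i => isClosed_eq (hwc i) continuous_const
  have hMs : ∀ x, ∃ z, (x, z) ∈ M := by
    intro x
    obtain ⟨z, hz⟩ := hmir (fun i z => w i (x, z)) (fun i => (hwc i).comp (by fun_prop))
      (fun i z hz => hw1 i (x, z) (Or.inr hz) (by
        rintro (h | h)
        · have := hRk i _ h
          simp only at this
          rw [hz] at this
          norm_num at this
        · have h' : κ i z = 1 := h
          rw [hz] at h'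
          norm_num at h'))
      (fun i z hz => hw2 i (x, z) (Or.inr hz) (by
        rintro (h | h)
        · have := hPk i _ h
          simp only at this
          rw [hz] at this
          norm_num at this
        · have h' : κ i z = 0 := h
          rw [hz] at h'
          norm_num at h'))
    exact ⟨z, mem_iInter.2 hz⟩
  have hmeet := meet hM hMs
  let C : Set (M0 Q) := {y | (y.1.1 = y.2.1.1 ∧ y.1.2 = false ∧ y.2.1.2 = true) ∧
    ((y.1.1, y.2.2) : (ℕ → Al) × Q) ∈ M}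
  have hC : IsClosed C := by
    refine ((isClosed_eq (by fun_prop) (by fun_prop)).inter ((isClosed_eq (by fun_prop)
      (by fun_prop)).inter (isClosed_eq (by fun_prop) (by fun_prop)))).inter ?_
    exact hM.preimage (by fun_prop)
  have hf : Fat (Q := Q) (J ⁻¹' C) := by
    intro Y hY
    by_contra hcon
    push Not at hcon
    refine hmeet (hY.mono fun x hx => ?_)
    by_contra hxY
    refine hxY (hcon (((x, false), (x, true)) : D Q × D Q) ?_ hxY)
    refine ⟨⟨rfl, rfl, rfl⟩, ?_⟩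
    have h2 : g ((x, false) : D Q) ((x, true) : D Q) = f x := g_twin (by simp) rfl
    show ((x.1, g ((x, false) : D Q) ((x, true) : D Q)) : (ℕ → Al) × Q) ∈ M
    rw [h2]
    exact hx
  obtain ⟨en, hen⟩ := exists_surjective_nat (Bool × (ℕ × ℕ))
  obtain ⟨p, ⟨⟨hp1, hp2, hp3⟩, hp4⟩, hcat⟩ := catch' hL
    (fun n => bif (en n).1 then P (en n).2 else R (en n).2) hC hf
  have hTD : TD (Q := Q) p := ⟨Subtype.ext hp1, hp2, hp3⟩
  have hcP : ∀ i, p ∈ clT (Q := Q) (P i) → p ∈ closure (X := Sp L × Sp L) (P i) := by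
    intro i h
    obtain ⟨n, hn⟩ := hen (true, i)
    have := hcat n
    rw [hn] at this
    exact this h
  have hcR : ∀ i, p ∈ clT (Q := Q) (R i) → p ∈ closure (X := Sp L × Sp L) (R i) := by
    intro i h
    obtain ⟨n, hn⟩ := hen (false, i)
    have := hcat n
    rw [hn] at this
    exact this h
  have hyM : tau (Q := Q) p ∈ M := hp4
  obtain ⟨k, hk⟩ := mem_iUnion.1 (hA ▸ mem_univ p : p ∈ ⋃ k, A k)
  obtain ⟨i, hi⟩ := hGc k ⟨p, hk⟩
  apply hi
  have hw' : w (k, i) (tau (Q := Q) p) = 0 := mem_iInter.1 hyM (k, i)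
  have hiff := hw0 (k, i) _ hw'
  refine le_antisymm ?_ ?_
  · by_contra hcon
    have hgt := not_le.1 hcon
    have h2 : (p : D Q × D Q) ∈ R (k, i) := ⟨hTD, i.2, hk, hgt.le⟩
    have h3 : tau (Q := Q) p ∈ Rh (k, i) := Or.inl (subset_closure ⟨p, h2, rfl⟩)
    rcases hiff.1 h3 with h4 | h4
    · have h5 := hcP (k, i) (clT_of_tau (fun q hq => hq.1) hTD h4)
      have h6 : IsClosed {a : A k | G k i a ≤ c k i} := isClosed_le (hG k i) continuous_const
      refine hcon (closure_sub (Y := Sp L × Sp L) h6 (S := P (k, i)) ?_ hk h5)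
      rintro q ⟨_, hi', hq, hle⟩
      exact ⟨hq, hle⟩
    · have h5 := hG0 k i ⟨p, hk⟩ (by
        rw [show κ (k, i) (tau (Q := Q) p).2 = 0 from h4]; norm_num)
      rw [h5] at hgt
      exact absurd (hc k i).1 (not_lt.2 hgt.le)
  · by_contra hcon
    have hgt := not_le.1 hcon
    have h2 : (p : D Q × D Q) ∈ P (k, i) := ⟨hTD, i.2, hk, hgt.le⟩
    have h3 : tau (Q := Q) p ∈ Ph (k, i) := Or.inl (subset_closure ⟨p, h2, rfl⟩)
    rcases hiff.2 h3 with h4 | h4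
    · have h5 := hcR (k, i) (clT_of_tau (fun q hq => hq.1) hTD h4)
      have h6 : IsClosed {a : A k | c k i ≤ G k i a} := isClosed_le continuous_const (hG k i)
      refine hcon (closure_sub (Y := Sp L × Sp L) h6 (S := R (k, i)) ?_ hk h5)
      rintro q ⟨_, hi', hq, hle⟩
      exact ⟨hq, hle⟩
    · have h5 := hG1 k i ⟨p, hk⟩ (by
        rw [show κ (k, i) (tau (Q := Q) p).2 = 1 from h4]; norm_num)
      rw [h5] at hgt
      exact absurd (hc k i).2 (not_lt.2 hgt.le)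

end Pool.Agent.U540.FD
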