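import Mathlib

/-!
# Convergent words and the map `g`

`Al` letters, `E Q` the words whose letters (through a dense sequence of the compact metric
space `Q`) converge in `Q`, `D Q = E Q × Bool`; the map `g : D Q → D Q → Q` is the limit on the
twin pairs `((x, 0), (x, 1))` and the last common letter on the other pairs of different colour.
`J` puts the two coordinates and `g` together; `clT` is the closure in the second countable
topology induced by `J`.
-/

set_option autoImplicit false

namespace Pool.Agent.U540.FD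

open Set Filter Topology TopologicalSpace

/-- letters -/
abbrev Al : Type := ℕ × Bool

/-- First difference of two words. -/
noncomputable def fd (x y : ℕ → Al) : ℕ := PiNat.firstDiff x y

theorem fd_ne {x y : ℕ → Al} (h : x ≠ y) : x (fd x y) ≠ y (fd x y) :=
  PiNat.apply_firstDiff_ne h

theorem fd_lt {x y : ℕ → Al} {n : ℕ} (h : n < fd x y) : x n = y n :=
  PiNat.apply_eq_of_lt_firstDiff h

theorem fd_comm (x y : ℕ → Al) : fd x y = fd y x := PiNat.firstDiff_comm x y

theorem le_fd {x y : ℕ → Al} {n : ℕ} (h : x ≠ y) (h1 : ∀ i < n, x i = y i) : n ≤ fd x y := by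
  by_contra hcon
  exact fd_ne h (h1 _ (not_le.1 hcon))

theorem fd_eq {x y : ℕ → Al} {n : ℕ} (h1 : ∀ i < n, x i = y i) (h2 : x n ≠ y n) :
    fd x y = n := by
  have h : x ≠ y := fun h => h2 (by rw [h])
  refine le_antisymm ?_ (le_fd h h1)
  by_contra hcon
  exact h2 (fd_lt (not_le.1 hcon))

section
variable (Q : Type) [MetricSpace Q] [CompactSpace Q] [Nonempty Q]

/-- The dense sequence of `Q`, indexed by letters. -/
noncomputable def qs (a : Al) : Q := denseSeq Q a.1

/-- Convergent words. -/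
def E : Type := {x : ℕ → Al // ∃ q : Q, Tendsto (fun n => qs Q (x n)) atTop (𝓝 q)}

/-- The underlying set of the space `X`. -/
def D : Type := E Q × Bool

end

variable {Q : Type} [MetricSpace Q] [CompactSpace Q] [Nonempty Q]

/-- The limit of a convergent word. -/
noncomputable def f (x : E Q) : Q := x.2.choose

theorem f_spec (x : E Q) : Tendsto (fun n => qs Q (x.1 n)) atTop (𝓝 (f x)) := x.2.choose_spec

theorem f_eq {x : E Q} {q : Q} (h : Tendsto (fun n => qs Q (x.1 n)) atTop (𝓝 q)) : f x = q :=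
  tendsto_nhds_unique (f_spec x) h

variable (Q) in
/-- A base point. -/
noncomputable def q0 : Q := Classical.arbitrary Q

open Classical in
/-- The map `g`. -/
noncomputable def g (u v : D Q) : Q :=
  if u.2 = v.2 then q0 Q else if u.1 = v.1 then f u.1 else
    if fd u.1.1 v.1.1 = 0 then q0 Q else qs Q (u.1.1 (fd u.1.1 v.1.1 - 1))

theorem g_same {u v : D Q} (h : u.2 = v.2) : g u v = q0 Q := by
  unfold g; rw [if_pos h]

theorem g_twin {u v : D Q} (h : u.2 ≠ v.2) (h1 : u.1 = v.1) : g u v = f u.1 := by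
  unfold g; rw [if_neg h, if_pos h1]

theorem g_zero {u v : D Q} (h : u.2 ≠ v.2) (h1 : u.1.1 0 ≠ v.1.1 0) : g u v = q0 Q := by
  unfold g
  have h2 : u.1 ≠ v.1 := fun h => h1 (by rw [h])
  rw [if_neg h, if_neg h2, if_pos (fd_eq (n := 0) (by simp) h1)]

theorem g_succ {u v : D Q} {j : ℕ} (h : u.2 ≠ v.2) (h1 : ∀ i ≤ j, u.1.1 i = v.1.1 i)
    (h2 : u.1.1 (j + 1) ≠ v.1.1 (j + 1)) : g u v = qs Q (u.1.1 j) := by
  unfold g
  have h3 : u.1 ≠ v.1 := fun h => h2 (by rw [h])
  have h4 : fd u.1.1 v.1.1 = j + 1 := fd_eq (fun i hi => h1 i (by omega)) h2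
  rw [if_neg h, if_neg h3, h4, if_neg (by omega)]
  simp

/-- `g` at pairs of different colour and different words. -/
theorem g_fd {u v : D Q} {j : ℕ} (h : u.2 ≠ v.2) (h1 : ∀ i < j, u.1.1 i = v.1.1 i)
    (h2 : u.1.1 j ≠ v.1.1 j) : g u v = if j = 0 then q0 Q else qs Q (u.1.1 (j - 1)) := by
  rcases j with _ | j
  · simp [g_zero h h2]
  · rw [g_succ h (fun i hi => h1 i (by omega)) h2]; simp

/-- Closeness of the letters from `n - 1` on to the limit. -/
def Om (x : E Q) (n : ℕ) (ε : ℝ) : Prop :=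
  (∀ j, n ≤ j + 1 → dist (qs Q (x.1 j)) (f x) ≤ ε) ∧ 2 / ((n : ℝ) + 1) ≤ ε

theorem exists_Om (x : E Q) {ε : ℝ} (hε : 0 < ε) : ∃ n0, ∀ n, n0 ≤ n → Om x n ε := by
  obtain ⟨n1, h1⟩ := Metric.tendsto_atTop.1 (f_spec x) ε hε
  obtain ⟨n2, h2⟩ := exists_nat_gt (2 / ε)
  refine ⟨max (n1 + 1) n2, fun n hn => ⟨fun j hj => (h1 j ?_).le, ?_⟩⟩
  · have := (le_max_left (n1 + 1) n2).trans hn
    omega
  · have h3 : (n2 : ℝ) ≤ n := by exact_mod_cast (le_max_right (n1 + 1) n2).trans hn
    rw [div_lt_iff₀ hε] at h2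
    rw [div_le_iff₀ (by positivity)]
    nlinarith

/-- The coordinates of a point. -/
def co (w : D Q) : (ℕ → Al) × Bool := (w.1.1, w.2)

theorem co_inj : Function.Injective (co (Q := Q)) := by
  rintro ⟨x, a⟩ ⟨y, b⟩ h
  simp only [co, Prod.mk.injEq] at h
  exact Prod.ext (Subtype.ext h.1) h.2

variable (Q) in
/-- The target of `J`. -/
abbrev M0 : Type := ((ℕ → Al) × Bool) × ((ℕ → Al) × Bool) × Q

/-- Coordinates and `g`. -/
noncomputable def J (p : D Q × D Q) : M0 Q := (co p.1, co p.2, g p.1 p.2)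

theorem J_inj : Function.Injective (J (Q := Q)) := by
  intro p q h
  simp only [J, Prod.mk.injEq] at h
  exact Prod.ext (co_inj h.1) (co_inj h.2.1)

/-- Closure in the topology induced by `J`. -/
def clT (S : Set (D Q × D Q)) : Set (D Q × D Q) := J ⁻¹' closure (J '' S)

theorem subset_clT (S : Set (D Q × D Q)) : S ⊆ clT S := fun _ hp =>
  subset_closure (mem_image_of_mem _ hp)

theorem clT_mono {S S' : Set (D Q × D Q)} (h : S ⊆ S') : clT S ⊆ clT S' := fun _ hp =>
  closure_mono (image_mono h) hp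

/-- Every set has a countable subset which is dense in it. -/
theorem exists_seq (S : Set (D Q × D Q)) (hS : S.Nonempty) :
    ∃ s : ℕ → D Q × D Q, (∀ n, s n ∈ S) ∧ clT (range s) = clT S := by
  obtain ⟨c, hc, hcc, hcl⟩ := (IsSeparable.of_separableSpace (J '' S)).exists_countable_dense_subset
  have hne : c.Nonempty := by
    rw [nonempty_iff_ne_empty]
    rintro rfl
    obtain ⟨p, hp⟩ := hS
    have := hcl (mem_image_of_mem J hp)
    simp at this
  obtain ⟨t, ht⟩ := hcc.exists_eq_range hne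
  have h1 : ∀ n, ∃ p ∈ S, J p = t n := fun n => hc (ht ▸ mem_range_self n)
  choose s hs hst using h1
  refine ⟨s, hs, ?_⟩
  have h2 : J '' range s = c := by
    rw [ht, ← range_comp]
    exact congrArg range (funext hst)
  unfold clT
  rw [h2]
  congr 1
  exact subset_antisymm (closure_mono hc) (closure_minimal hcl isClosed_closure)

/-- Not contained in countably many lines. -/
def Fat (R : Set (D Q × D Q)) : Prop :=
  ∀ Y : Set (E Q), Y.Countable → ∃ p ∈ R, p.1.1 ∉ Y ∧ p.2.1 ∉ Y

end Pool.Agent.U540.FD
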