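import Mathlib

/-!
# Independent copies of the Cantor set

A closed subset `C` of a Polish space with a countable family of continuous maps to a Hausdorff
space, such that `C` is not covered by countably many fibres, contains a family indexed by the
Cantor set on which all values are different.
-/

set_option autoImplicit false

namespace Pool.Agent.U540.FD

open Set Filter Topology TopologicalSpace CantorScheme PiNat

section metric

variable {P A : Type} [MetricSpace P] [SecondCountableTopology P] [TopologicalSpace A] [T2Space A]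
  (π : Bool → P → A)

/-- Not covered by countably many fibres. -/
def PFat (C : Set P) : Prop := ∀ Y : Set A, Y.Countable → ∃ z ∈ C, ∀ i, π i z ∉ Y

theorem split (hπ : ∀ i, Continuous (π i)) {C : Set P} (hC : IsClosed C) (hf : PFat π C)
    {ε : ENNReal} (hε : 0 < ε) : ∃ C' : Bool → Set P, (∀ b, IsClosed (C' b) ∧ PFat π (C' b) ∧
      C' b ⊆ C ∧ Metric.ediam (C' b) ≤ ε) ∧ ∀ z ∈ C' false, ∀ z' ∈ C' true, ∀ i j,
        π i z ≠ π j z' := by
  classical
  have hB := TopologicalSpace.countable_countableBasis P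
  have h1 : ∀ V : Set P, ∃ Y : Set A, Y.Countable ∧ (¬ PFat π (C ∩ V) →
      ∀ z ∈ C ∩ V, ∃ i, π i z ∈ Y) := by
    intro V
    by_cases h : PFat π (C ∩ V)
    · exact ⟨∅, countable_empty, fun h' => absurd h h'⟩
    · unfold PFat at h
      push Not at h
      obtain ⟨Y, hY, h2⟩ := h
      exact ⟨Y, hY, fun _ => h2⟩
  choose Y hY1 hY2 using h1
  set Y0 : Set A := ⋃ V ∈ countableBasis P, Y V with hY0
  have hY0c : Y0.Countable := hB.biUnion fun V _ => hY1 V
  have hker : ∀ z ∈ C, (∀ i, π i z ∉ Y0) → ∀ N ∈ 𝓝 z, PFat π (C ∩ N) := by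
    intro z hz hzY N hN
    obtain ⟨V, hV, hzV, hVN⟩ := (isBasis_countableBasis P).mem_nhds_iff.1 hN
    by_contra hcon
    have h2 : ¬ PFat π (C ∩ V) := by
      intro h3
      apply hcon
      intro Y hY
      obtain ⟨y, hy, h4⟩ := h3 Y hY
      exact ⟨y, ⟨hy.1, hVN hy.2⟩, h4⟩
    obtain ⟨i, hi⟩ := hY2 V h2 z ⟨hz, hzV⟩
    exact hzY i (mem_biUnion hV hi)
  obtain ⟨z0, hz0, h0⟩ := hf Y0 hY0c
  obtain ⟨z1, hz1, h1⟩ := hf (Y0 ∪ range fun i => π i z0)
    (hY0c.union (countable_range _))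
  have hne : ∀ i j, π i z0 ≠ π j z1 := by
    intro i j h
    exact h1 j (Or.inr ⟨i, h⟩)
  have hN : ∀ i j, ∃ N0 ∈ 𝓝 z0, ∃ N1 ∈ 𝓝 z1, ∀ z ∈ N0, ∀ z' ∈ N1, π i z ≠ π j z' := by
    intro i j
    obtain ⟨O0, O1, hO0, hO1, hm0, hm1, hd⟩ := t2_separation (hne i j)
    refine ⟨π i ⁻¹' O0, (hO0.preimage (hπ i)).mem_nhds hm0, π j ⁻¹' O1,
      (hO1.preimage (hπ j)).mem_nhds hm1, fun z hz z' hz' h => ?_⟩
    exact Set.disjoint_left.1 hd hz (by rw [h]; exact hz')
  choose N0 hN0 N1 hN1 hN using hN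
  have hE : ∀ z : P, Metric.eball z (ε / 2) ∈ 𝓝 z := fun z =>
    Metric.eball_mem_nhds _ (ENNReal.div_pos hε.ne' (by simp))
  have hM0 : (⋂ i, ⋂ j, N0 i j) ∩ Metric.eball z0 (ε / 2) ∈ 𝓝 z0 :=
    inter_mem (by simp [hN0]) (hE z0)
  have hM1 : (⋂ i, ⋂ j, N1 i j) ∩ Metric.eball z1 (ε / 2) ∈ 𝓝 z1 :=
    inter_mem (by simp [hN1]) (hE z1)
  obtain ⟨K0, hK0, hK0c, hK0s⟩ := exists_mem_nhds_isClosed_subset hM0
  obtain ⟨K1, hK1, hK1c, hK1s⟩ := exists_mem_nhds_isClosed_subset hM1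
  have hdiam : ∀ (z : P) (K : Set P), K ⊆ Metric.eball z (ε / 2) → Metric.ediam (C ∩ K) ≤ ε := by
    intro z K hK
    refine (Metric.ediam_mono (inter_subset_right.trans hK)).trans ?_
    refine Metric.ediam_eball_le.trans (le_of_eq ?_)
    rw [mul_comm, ENNReal.div_mul_cancel] <;> norm_num
  refine ⟨fun b => bif b then C ∩ K1 else C ∩ K0, ?_, ?_⟩
  · rintro (_ | _)
    · exact ⟨hC.inter hK0c, hker z0 hz0 h0 K0 hK0, inter_subset_left,
        hdiam z0 K0 (hK0s.trans inter_subset_right)⟩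
    · exact ⟨hC.inter hK1c, hker z1 hz1 (fun i h => h1 i (Or.inl h)) K1 hK1, inter_subset_left,
        hdiam z1 K1 (hK1s.trans inter_subset_right)⟩
  · intro z hz z' hz' i j
    have ha := (hK0s hz.2).1
    have hb := (hK1s hz'.2).1
    simp only [mem_iInter] at ha hb
    exact hN i j z (ha i j) z' (hb i j)

theorem indep_metric [CompleteSpace P] (hπ : ∀ i, Continuous (π i)) {C : Set P}
    (hC : IsClosed C) (hf : PFat π C) : ∃ φ : (ℕ → Bool) → P, (∀ a, φ a ∈ C) ∧
      ∀ a b, a ≠ b → ∀ i j, π i (φ a) ≠ π j (φ b) := by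
  classical
  obtain ⟨u, -, upos', hu⟩ := exists_seq_strictAnti_tendsto' (zero_lt_one' ENNReal)
  have upos := fun n => (upos' n).1
  let PP := {C : Set P // IsClosed C ∧ PFat π C}
  have hs : ∀ (C : PP) (n : ℕ), ∃ C' : Bool → PP, (∀ b, (C' b).1 ⊆ C.1 ∧
      Metric.ediam (C' b).1 ≤ u n) ∧ ∀ z ∈ (C' false).1, ∀ z' ∈ (C' true).1, ∀ i j,
        π i z ≠ π j z' := by
    intro C n
    obtain ⟨C', h1, h2⟩ := split π hπ C.2.1 C.2.2 (upos n)
    exact ⟨fun b => ⟨C' b, (h1 b).1, (h1 b).2.1⟩, fun b => ⟨(h1 b).2.2.1, (h1 b).2.2.2⟩, h2⟩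
  choose S hS1 hS2 using hs
  let DP : List Bool → PP := fun l => List.rec ⟨C, hC, hf⟩ (fun a l ih => S ih l.length a) l
  have hDP : ∀ a l, DP (a :: l) = S (DP l) l.length a := fun _ _ => rfl
  let D : List Bool → Set P := fun l => (DP l).1
  have hne : ∀ l, (D l).Nonempty := by
    intro l
    obtain ⟨z, hz, -⟩ := (DP l).2.2 ∅ countable_empty
    exact ⟨z, hz⟩
  have hanti : ClosureAntitone D := by
    refine Antitone.closureAntitone ?_ fun l => (DP l).2.1
    intro l a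
    exact ((hS1 (DP l) l.length) a).1
  have hdiam : VanishingDiam D := by
    intro x
    apply tendsto_of_tendsto_of_tendsto_of_le_of_le' tendsto_const_nhds
      (hu.comp (tendsto_sub_atTop_nat 1))
    · simp
    rw [eventually_atTop]
    refine ⟨1, fun m (hm : 1 ≤ m) => ?_⟩
    obtain ⟨n, rfl⟩ := Nat.exists_eq_succ_of_ne_zero (Nat.one_le_iff_ne_zero.1 hm)
    have := ((hS1 (DP (res x n)) (res x n).length) (x n)).2
    rw [res_length] at this
    simpa [D, hDP, res_succ] using this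
  have hdom : ∀ {x : ℕ → Bool}, x ∈ (inducedMap D).1 := fun {x} => by
    rw [hanti.map_of_vanishingDiam hdiam hne]
    apply mem_univ
  have hdisj : ∀ l, ∀ z ∈ D (false :: l), ∀ z' ∈ D (true :: l), ∀ i j, π i z ≠ π j z' := by
    intro l
    exact hS2 (DP l) l.length
  refine ⟨fun x => (inducedMap D).2 ⟨x, hdom⟩, fun x => map_mem ⟨_, hdom⟩ 0, ?_⟩
  intro a b hab i j
  have ha := map_mem (A := D) ⟨a, hdom⟩ (firstDiff a b + 1)
  have hb := map_mem (A := D) ⟨b, hdom⟩ (firstDiff a b + 1)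
  have h1 := apply_firstDiff_ne hab
  have h2 : res a (firstDiff a b) = res b (firstDiff a b) :=
    res_eq_res.2 fun i hi => apply_eq_of_lt_firstDiff hi
  have h3 : res a (firstDiff a b + 1) = a (firstDiff a b) :: res b (firstDiff a b) := by
    rw [res_succ, h2]
  have h4 : res b (firstDiff a b + 1) = b (firstDiff a b) :: res b (firstDiff a b) := by
    rw [res_succ]
  rw [h3] at ha
  rw [h4] at hb
  cases h5 : a (firstDiff a b) <;> cases h6 : b (firstDiff a b)
  · rw [h5, h6] at h1; exact absurd rfl h1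
  · rw [h5] at ha
    rw [h6] at hb
    exact hdisj _ _ ha _ hb i j
  · rw [h5] at ha
    rw [h6] at hb
    exact (hdisj _ _ hb _ ha j i).symm
  · rw [h5, h6] at h1; exact absurd rfl h1

end metric

theorem indep {P A : Type} [TopologicalSpace P] [PolishSpace P] [TopologicalSpace A] [T2Space A]
    (π : Bool → P → A) (hπ : ∀ i, Continuous (π i)) {C : Set P}
    (hC : IsClosed C) (hf : PFat π C) : ∃ φ : (ℕ → Bool) → P, (∀ a, φ a ∈ C) ∧
      ∀ a b, a ≠ b → ∀ i j, π i (φ a) ≠ π j (φ b) := by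
  let := TopologicalSpace.upgradeIsCompletelyMetrizable P
  exact indep_metric π hπ hC hf

end Pool.Agent.U540.FD
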