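import Pool.Agent.U540.FD.Base
import Pool.Agent.U540.FD.Perf

/-!
# Fat closed sets are big
-/

set_option autoImplicit false

namespace Pool.Agent.U540.FD

open Set Filter Topology TopologicalSpace Cardinal

variable {Q : Type} [MetricSpace Q] [CompactSpace Q] [Nonempty Q]

variable (Q) in
/-- The space of words, limits, moduli and colours. -/
abbrev L1 : Type := (ℕ → Al) × Q × (ℕ → ℕ) × Bool

variable (Q) in
/-- The closed set of coherent data. -/
def PE : Set (L1 Q) :=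
  {z | ∀ m n, z.2.2.1 m ≤ n → dist (qs Q (z.1 n)) z.2.1 ≤ 1 / ((m : ℝ) + 1)}

instance : PolishSpace (L1 Q) := inferInstance

instance : PolishSpace (L1 Q × L1 Q) := inferInstance

theorem ev_eq {X Y : Type} [TopologicalSpace X] [TopologicalSpace Y] [DiscreteTopology Y]
    {F : X → Y} (h : Continuous F) (x : X) : ∀ᶠ z in 𝓝 x, F z = F x := by
  have := (isOpen_discrete {F x}).preimage h
  exact this.mem_nhds (show F x ∈ ({F x} : Set Y) from rfl)

omit [CompactSpace Q] [Nonempty Q] in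
theorem continuous_apply_fst (n : ℕ) : Continuous (fun z : L1 Q => z.1 n) :=
  (continuous_apply n).comp continuous_fst

theorem isClosed_PE : IsClosed (PE Q) := by
  unfold PE
  simp only [ofPred_forall]
  refine isClosed_iInter fun m => isClosed_iInter fun n => ?_
  have h1 : IsOpen {z : L1 Q | z.2.2.1 m ≤ n} := by
    have : Continuous (fun z : L1 Q => z.2.2.1 m) :=
      (continuous_apply m).comp (continuous_fst.comp (continuous_snd.comp continuous_snd))
    exact (isOpen_discrete {k : ℕ | k ≤ n}).preimage this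
  have h2 : IsClosed {z : L1 Q | dist (qs Q (z.1 n)) z.2.1 ≤ 1 / ((m : ℝ) + 1)} := by
    refine isClosed_le ?_ continuous_const
    have h3 : Continuous (qs Q) := continuous_of_discreteTopology
    exact (h3.comp (continuous_apply_fst n)).dist (continuous_fst.comp continuous_snd)
  exact isClosed_imp h1 h2

theorem PE_tendsto {z : L1 Q} (hz : z ∈ PE Q) :
    Tendsto (fun n => qs Q (z.1 n)) atTop (𝓝 z.2.1) := by
  rw [Metric.tendsto_atTop]
  intro ε hε
  obtain ⟨m, hm⟩ := exists_nat_one_div_lt hε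
  exact ⟨z.2.2.1 m, fun n hn => (hz m n hn).trans_lt hm⟩

/-- The point of `D Q` given by coherent data. -/
def pt (z : L1 Q) (hz : z ∈ PE Q) : D Q := (⟨z.1, z.2.1, PE_tendsto hz⟩, z.2.2.2)

theorem f_pt (z : L1 Q) (hz : z ∈ PE Q) : f (pt z hz).1 = z.2.1 := f_eq (PE_tendsto hz)

theorem exists_lift (w : D Q) : ∃ z : L1 Q, ∃ hz : z ∈ PE Q, pt z hz = w := by
  have h : ∀ m : ℕ, ∃ N : ℕ, ∀ n, N ≤ n → dist (qs Q (w.1.1 n)) (f w.1) ≤ 1 / ((m : ℝ) + 1) := by
    intro m
    obtain ⟨N, hN⟩ := Metric.tendsto_atTop.1 (f_spec w.1) (1 / ((m : ℝ) + 1)) (by positivity)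
    exact ⟨N, fun n hn => (hN n hn).le⟩
  choose ν hν using h
  exact ⟨(w.1.1, f w.1, ν, w.2), fun m n hn => hν m n hn, rfl⟩

open Classical in
/-- `g` on data. -/
noncomputable def gw (z z' : L1 Q) : Q :=
  if z.2.2.2 = z'.2.2.2 then q0 Q else if z.1 = z'.1 then z.2.1 else
    if fd z.1 z'.1 = 0 then q0 Q else qs Q (z.1 (fd z.1 z'.1 - 1))

theorem gw_eq (z z' : L1 Q) (hz : z ∈ PE Q) (hz' : z' ∈ PE Q) :
    g (pt z hz) (pt z' hz') = gw z z' := by
  unfold gw g
  rw [f_pt]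
  have h : ((pt z hz).1 = (pt z' hz').1) ↔ z.1 = z'.1 := Subtype.ext_iff
  by_cases h1 : z.1 = z'.1
  · rw [if_pos (h.2 h1), if_pos h1]; rfl
  · rw [if_neg (fun h2 => h1 (h.1 h2)), if_neg h1]; rfl

theorem continuousOn_gw : ContinuousOn (fun z : L1 Q × L1 Q => gw z.1 z.2) (PE Q ×ˢ PE Q) := by
  rintro ⟨u, v⟩ ⟨hu, hv⟩
  have hfst : ∀ n, ∀ᶠ z : L1 Q × L1 Q in 𝓝 (u, v), z.1.1 n = u.1 n := by
    intro n
    have : Continuous (fun z : L1 Q × L1 Q => z.1.1 n) :=
      (continuous_apply_fst n).comp continuous_fst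
    exact ev_eq this (u, v)
  have hsnd : ∀ n, ∀ᶠ z : L1 Q × L1 Q in 𝓝 (u, v), z.2.1 n = v.1 n := by
    intro n
    have : Continuous (fun z : L1 Q × L1 Q => z.2.1 n) :=
      (continuous_apply_fst n).comp continuous_snd
    exact ev_eq this (u, v)
  have hag : ∀ N : ℕ, ∀ᶠ z : L1 Q × L1 Q in 𝓝 (u, v), ∀ n < N, z.1.1 n = u.1 n ∧
      z.2.1 n = v.1 n := by
    intro N
    induction N with
    | zero => simp
    | succ N ih =>
      filter_upwards [ih, hfst N, hsnd N] with z h1 h2 h3 n hn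
      rcases Nat.lt_succ_iff_lt_or_eq.1 hn with h | rfl
      · exact h1 n h
      · exact ⟨h2, h3⟩
  have hcol : ∀ᶠ z : L1 Q × L1 Q in 𝓝 (u, v), z.1.2.2.2 = u.2.2.2 ∧ z.2.2.2.2 = v.2.2.2 := by
    have h1 : Continuous (fun z : L1 Q × L1 Q => z.1.2.2.2) := by fun_prop
    have h2 : Continuous (fun z : L1 Q × L1 Q => z.2.2.2.2) := by fun_prop
    exact (ev_eq h1 (u, v)).and (ev_eq h2 (u, v))
  by_cases h : u.2.2.2 = v.2.2.2
  · have h1 : (fun z : L1 Q × L1 Q => gw z.1 z.2) =ᶠ[𝓝 (u, v)] fun _ => q0 Q := by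
      filter_upwards [hcol] with z hz
      unfold gw
      rw [if_pos (by rw [hz.1, hz.2, h])]
    exact h1.continuousAt.continuousWithinAt
  by_cases h1 : u.1 = v.1
  · rw [Metric.continuousWithinAt_iff']
    intro ε hε
    obtain ⟨m, hm⟩ := exists_nat_one_div_lt (half_pos hε)
    have h2 : ∀ᶠ z : L1 Q × L1 Q in 𝓝 (u, v), z.1.2.2.1 m = u.2.2.1 m := by
      have : Continuous (fun z : L1 Q × L1 Q => z.1.2.2.1 m) :=
        (continuous_apply m).comp (by fun_prop)
      exact ev_eq this (u, v)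
    have h3 : ∀ᶠ z : L1 Q × L1 Q in 𝓝 (u, v), dist z.1.2.1 u.2.1 < ε / 2 := by
      have : Continuous (fun z : L1 Q × L1 Q => z.1.2.1) := by fun_prop
      exact this.continuousAt.eventually (Metric.ball_mem_nhds _ (half_pos hε))
    filter_upwards [mem_nhdsWithin_of_mem_nhds hcol, mem_nhdsWithin_of_mem_nhds h2,
      mem_nhdsWithin_of_mem_nhds h3, mem_nhdsWithin_of_mem_nhds (hag (u.2.2.1 m + 1)),
      self_mem_nhdsWithin] with z hz1 hz2 hz3 hz4 hz5
    have h4 : gw u v = u.2.1 := by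
      unfold gw; rw [if_neg h, if_pos h1]
    show dist (gw z.1 z.2) (gw u v) < ε
    rw [h4]
    unfold gw
    rw [if_neg (by rw [hz1.1, hz1.2]; exact h)]
    by_cases h5 : z.1.1 = z.2.1
    · rw [if_pos h5]; linarith
    · rw [if_neg h5]
      have h6 : u.2.2.1 m + 1 ≤ fd z.1.1 z.2.1 := le_fd h5 fun i hi => by
        rw [(hz4 i hi).1, (hz4 i hi).2, h1]
      rw [if_neg (by omega)]
      have h7 := hz5.1 m (fd z.1.1 z.2.1 - 1) (by
        have : z.1.2.2.1 m = u.2.2.1 m := hz2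
        omega)
      have := dist_triangle (qs Q (z.1.1 (fd z.1.1 z.2.1 - 1))) z.1.2.1 u.2.1
      linarith
  · set j := fd u.1 v.1 with hj
    have h4 : (fun z : L1 Q × L1 Q => gw z.1 z.2) =ᶠ[𝓝 (u, v)]
        fun _ => if j = 0 then q0 Q else qs Q (u.1 (j - 1)) := by
      filter_upwards [hcol, hag (j + 1)] with z hz1 hz2
      have h5 : fd z.1.1 z.2.1 = j := by
        refine fd_eq (fun i hi => ?_) ?_
        · rw [(hz2 i (by omega)).1, (hz2 i (by omega)).2]; exact fd_lt hi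
        · rw [(hz2 j (by omega)).1, (hz2 j (by omega)).2]; exact fd_ne h1
      have h6 : z.1.1 ≠ z.2.1 := by
        intro h6
        have := fd_ne h1
        rw [← hj, ← (hz2 j (by omega)).1, ← (hz2 j (by omega)).2, h6] at this
        exact this rfl
      unfold gw
      rw [if_neg (by rw [hz1.1, hz1.2]; exact h), if_neg h6, h5]
      by_cases hz : j = 0
      · simp [hz]
      · rw [if_neg hz, if_neg hz, (hz2 _ (by omega)).1]
    exact h4.continuousAt.continuousWithinAt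

/-- Closed fat sets are not covered by fewer than continuum many lines. -/
theorem big {C : Set (M0 Q)} (hC : IsClosed C) (hf : Fat (J ⁻¹' C)) (Y : Set (E Q))
    (hY : #Y < 𝔠) : ∃ p : D Q × D Q, J p ∈ C ∧ p.1.1 ∉ Y ∧ p.2.1 ∉ Y := by
  classical
  let π : Bool → L1 Q × L1 Q → (ℕ → Al) := fun b z => bif b then z.2.1 else z.1.1
  have hπ : ∀ i, Continuous (π i) := by
    rintro (_ | _)
    · exact continuous_fst.comp continuous_fst
    · exact continuous_fst.comp continuous_snd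
  let Jw : L1 Q × L1 Q → M0 Q := fun z => ((z.1.1, z.1.2.2.2), (z.2.1, z.2.2.2.2), gw z.1 z.2)
  have hJw : ContinuousOn Jw (PE Q ×ˢ PE Q) := by
    refine ContinuousOn.prodMk ?_ (ContinuousOn.prodMk ?_ continuousOn_gw)
    · exact Continuous.continuousOn (by fun_prop)
    · exact Continuous.continuousOn (by fun_prop)
  have hC' : IsClosed ((PE Q ×ˢ PE Q) ∩ Jw ⁻¹' C) :=
    hJw.preimage_isClosed_of_isClosed (isClosed_PE.prod isClosed_PE) hC
  have hJJ : ∀ (z : L1 Q × L1 Q) (h1 : z.1 ∈ PE Q) (h2 : z.2 ∈ PE Q),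
      J (pt z.1 h1, pt z.2 h2) = Jw z := by
    intro z h1 h2
    simp only [J, Jw]
    rw [gw_eq]
    rfl
  have hPF : PFat π ((PE Q ×ˢ PE Q) ∩ Jw ⁻¹' C) := by
    intro Y hY
    obtain ⟨p, hp, h1, h2⟩ := hf (Subtype.val ⁻¹' Y)
      (hY.preimage Subtype.val_injective)
    obtain ⟨z1, hz1, he1⟩ := exists_lift p.1
    obtain ⟨z2, hz2, he2⟩ := exists_lift p.2
    refine ⟨(z1, z2), ⟨⟨hz1, hz2⟩, ?_⟩, ?_⟩
    · show Jw (z1, z2) ∈ C
      rw [← hJJ (z1, z2) hz1 hz2, he1, he2]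
      exact hp
    · rintro (_ | _)
      · rw [← he1] at h1; exact h1
      · rw [← he2] at h2; exact h2
  obtain ⟨φ, hφ1, hφ2⟩ := indep π hπ hC' hPF
  by_contra hcon
  push Not at hcon
  have h1 : ∀ a : ℕ → Bool, ∃ y : Y, ∃ i, y.1.1 = π i (φ a) := by
    intro a
    have h2 := hφ1 a
    have h3 := hcon (pt (φ a).1 h2.1.1, pt (φ a).2 h2.1.2) (by rw [hJJ]; exact h2.2)
    by_cases h4 : (pt (φ a).1 h2.1.1).1 ∈ Y
    · exact ⟨⟨_, h4⟩, false, rfl⟩
    · exact ⟨⟨_, h3 h4⟩, true, rfl⟩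
  choose y i hy using h1
  have hinj : Function.Injective y := by
    intro a b hab
    by_contra hne
    apply hφ2 a b hne (i a) (i b)
    rw [← hy, ← hy, hab]
  have h2 := mk_le_of_injective hinj
  rw [← power_def, mk_bool, mk_nat, two_power_aleph0] at h2
  exact absurd hY (not_lt.2 h2)

end Pool.Agent.U540.FD
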