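import Pool.Agent.U540.FD.Lad
import Pool.Agent.U540.FD.Big

/-!
# A ladder system which catches all sequences
-/

set_option autoImplicit false

namespace Pool.Agent.U540.FD

open Set Filter Topology TopologicalSpace Cardinal

variable {Q : Type} [MetricSpace Q] [CompactSpace Q] [Nonempty Q]

/-- The two projections. -/
def pr (i : Bool) (p : D Q × D Q) : D Q := bif i then p.2 else p.1

/-- The catching property. -/
def Catch (L : Lad Q) : Prop :=
  ∀ s : ℕ → ℕ → D Q × D Q, Fat (clT (range (s 0))) →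
    ∃ p ∈ clT (range (s 0)), ∀ n, p ∈ clT (range (s n)) → ∀ N : ℕ,
      ∃ q ∈ range (s n), Mem L p.1 N q.1 ∧ Mem L p.2 N q.2

/-- Points near a point of `clT`. -/
theorem exists_near {S : Set (D Q × D Q)} {p : D Q × D Q} (hp : p ∈ clT S) (N : ℕ) {ε : ℝ}
    (hε : 0 < ε) : ∃ q ∈ S, (∀ i, (pr i q).2 = (pr i p).2 ∧
      ∀ j < N, (pr i q).1.1 j = (pr i p).1.1 j) ∧ dist (g q.1 q.2) (g p.1 p.2) ≤ ε := by
  have h1 : ∀ᶠ y : M0 Q in 𝓝 (J p), (y.1.2 = (J p).1.2 ∧ y.2.1.2 = (J p).2.1.2) ∧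
      dist y.2.2 (J p).2.2 < ε := by
    refine ((ev_eq (F := fun y : M0 Q => y.1.2) (by fun_prop) (J p)).and
      (ev_eq (F := fun y : M0 Q => y.2.1.2) (by fun_prop) (J p))).and ?_
    have : Continuous (fun y : M0 Q => y.2.2) := by fun_prop
    exact this.continuousAt.eventually (Metric.ball_mem_nhds _ hε)
  have h2 : ∀ j, ∀ᶠ y : M0 Q in 𝓝 (J p), y.1.1 j = (J p).1.1 j ∧ y.2.1.1 j = (J p).2.1.1 j := by
    intro j
    refine (ev_eq (F := fun y : M0 Q => y.1.1 j) ?_ (J p)).and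
      (ev_eq (F := fun y : M0 Q => y.2.1.1 j) ?_ (J p))
    · exact (continuous_apply j).comp (by fun_prop)
    · exact (continuous_apply j).comp (by fun_prop)
  have h3 : ∀ᶠ y : M0 Q in 𝓝 (J p), ∀ j < N, y.1.1 j = (J p).1.1 j ∧
      y.2.1.1 j = (J p).2.1.1 j := by
    have := (Set.finite_lt_nat N).eventually_all (l := 𝓝 (J p)) (p := fun j (y : M0 Q) =>
      y.1.1 j = (J p).1.1 j ∧ y.2.1.1 j = (J p).2.1.1 j)
    exact this.2 fun j _ => h2 j
  obtain ⟨y, ⟨q, hq, rfl⟩, h4, h5⟩ := (mem_closure_iff_frequently.1 hp).and_eventually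
    (h1.and h3) |>.exists
  refine ⟨q, hq, ?_, h4.2.le⟩
  rintro (_ | _)
  · exact ⟨h4.1.1, fun j hj => (h5 j hj).1⟩
  · exact ⟨h4.1.2, fun j hj => (h5 j hj).2⟩

/-- Ladders for a pair. -/
structure Ldr (p : D Q × D Q) (q : ℕ → D Q × D Q) (m : ℕ → ℕ) : Prop where
  hb : ∀ k i, (pr i (q k)).2 = (pr i p).2
  ha : ∀ k i, ∀ j < k, (pr i (q k)).1.1 j = (pr i p).1.1 j
  ht : ∀ k l, k < l → ∀ i j, fd (pr i (q k)).1.1 (pr i p).1.1 < fd (pr j (q l)).1.1 (pr j p).1.1
  hg : ∀ k, dist (g (q k).1 (q k).2) (g p.1 p.2) ≤ 1 / ((k : ℝ) + 1)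
  hk : ∀ k, k ≤ m k
  hf : ∀ k i, fd (pr i (q k)).1.1 (pr i p).1.1 < m k
  hff : ∀ k i j, fd (pr i (q k)).1.1 (pr j (q k)).1.1 < m k
  hO : ∀ k i, Om (pr i (q k)).1 (m k) (1 / ((k : ℝ) + 1))

theorem exists_ldr (S : ℕ → Set (D Q × D Q)) (p : D Q × D Q) (hp : ∀ k, p ∈ clT (S k))
    (hne : ∀ k, ∀ q ∈ S k, ∀ i, (pr i q).1 ≠ (pr i p).1) :
    ∃ q m, Ldr p q m ∧ ∀ k, q k ∈ S k := by
  have h1 : ∀ k N : ℕ, ∃ q ∈ S k, (∀ i, (pr i q).2 = (pr i p).2 ∧
      ∀ j < N, (pr i q).1.1 j = (pr i p).1.1 j) ∧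
        dist (g q.1 q.2) (g p.1 p.2) ≤ 1 / ((k : ℝ) + 1) := fun k N =>
    exists_near (hp k) N (by positivity)
  choose t ht1 ht2 ht3 using h1
  let Nn : ℕ → ℕ := fun k => Nat.rec 0 (fun k N =>
    max (max (fd (pr false (t k N)).1.1 (pr false p).1.1) (fd (pr true (t k N)).1.1
      (pr true p).1.1)) N + 1) k
  have hN : ∀ k, Nn (k + 1) = max (max (fd (pr false (t k (Nn k))).1.1 (pr false p).1.1)
    (fd (pr true (t k (Nn k))).1.1 (pr true p).1.1)) (Nn k) + 1 := fun _ => rfl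
  have hNk : ∀ k, Nn k < Nn (k + 1) := fun k => by rw [hN]; omega
  have hNm : StrictMono Nn := strictMono_nat_of_lt_succ hNk
  have hNf : ∀ k i, fd (pr i (t k (Nn k))).1.1 (pr i p).1.1 < Nn (k + 1) := by
    rintro k (_ | _) <;> rw [hN] <;> omega
  have hNl : ∀ k i, Nn k ≤ fd (pr i (t k (Nn k))).1.1 (pr i p).1.1 := fun k i =>
    le_fd (fun h => hne k _ (ht1 k (Nn k)) i (Subtype.ext h)) (ht2 k (Nn k) i).2
  have hO : ∀ k : ℕ, ∃ n0, ∀ i, Om (pr i (t k (Nn k))).1 n0 (1 / ((k : ℝ) + 1)) ∧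
      k ≤ n0 ∧ (∀ i, fd (pr i (t k (Nn k))).1.1 (pr i p).1.1 < n0) ∧
        ∀ i j, fd (pr i (t k (Nn k))).1.1 (pr j (t k (Nn k))).1.1 < n0 := by
    intro k
    have h2 : ∀ i, ∃ n0, ∀ n, n0 ≤ n → Om (pr i (t k (Nn k))).1 n (1 / ((k : ℝ) + 1)) := fun i =>
      exists_Om _ (by positivity)
    choose n0 hn0 using h2
    obtain ⟨B, hB⟩ := (Set.finite_range (fun ij : Bool × Bool =>
      fd (pr ij.1 (t k (Nn k))).1.1 (pr ij.2 (t k (Nn k))).1.1)).bddAbove
    have hB' : ∀ i j, fd (pr i (t k (Nn k))).1.1 (pr j (t k (Nn k))).1.1 ≤ B := fun i j =>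
      hB ⟨(i, j), rfl⟩
    refine ⟨n0 false + n0 true + k + Nn (k + 1) + B + 1, fun i => ⟨hn0 i _ ?_, by omega,
      fun i => ?_, fun i j => ?_⟩⟩
    · cases i <;> omega
    · have := hNf k i; omega
    · have := hB' i j; omega
  choose m hm using hO
  refine ⟨fun k => t k (Nn k), m, ⟨fun k i => (ht2 k _ i).1, fun k i j hj => (ht2 k _ i).2 j
    (hj.trans_le (hNm.le_apply)), fun k l hkl i j => ?_, fun k => ht3 k _, fun k => (hm k true).2.1,
    fun k i => (hm k true).2.2.1 i, fun k i j => (hm k true).2.2.2 i j, fun k i => (hm k i).1⟩,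
    fun k => ht1 k _⟩
  have h1 := hNf k i
  have h2 := hNm.monotone (Nat.succ_le_of_lt hkl)
  have h3 := hNl l j
  simp only [Nat.succ_eq_add_one] at h2
  omega

theorem choice {ι : Type} (hι : #ι ≤ 𝔠) (R : ι → Set (D Q × D Q))
    (hR : ∀ i, ∀ Y : Set (E Q), #Y < 𝔠 → ∃ p ∈ R i, ∀ a, (pr a p).1 ∉ Y) :
    ∃ p : ι → D Q × D Q, (∀ i, p i ∈ R i) ∧ ∀ i j, ∀ a b, (pr a (p i)).1 = (pr b (p j)).1 → i = j := by
  obtain ⟨r, hr, ho⟩ := Cardinal.exists_ord_eq ι
  have step : ∀ (i : ι) (h : {j // r j i} → D Q × D Q), ∃ p ∈ R i,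
      ∀ j a b, (pr b (h j)).1 ≠ (pr a p).1 := by
    intro i h
    have h3 : #{j // r j i} < #ι := by
      rw [← Ordinal.card_typein]; exact card_typein_lt i ho
    obtain ⟨p, hp, h4⟩ := hR i (range fun jb : {j // r j i} × Bool => (pr jb.2 (h jb.1)).1) (by
      refine mk_range_le.trans_lt ?_
      rw [mk_prod, lift_id, lift_id]
      exact mul_lt_of_lt aleph0_le_continuum (h3.trans_le hι)
        ((by simp : #Bool < ℵ₀).trans_le aleph0_le_continuum))
    exact ⟨p, hp, fun j a b h5 => h4 a ⟨(j, b), h5⟩⟩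
  choose F hF1 hF2 using step
  have wf : WellFounded r := IsWellFounded.wf
  let p : ι → D Q × D Q := wf.fix (fun i g => F i (fun j => g j.1 j.2))
  have hp : ∀ i, p i = F i (fun j => p j.1) := fun i => WellFounded.fix_eq _ _ _
  have hne : ∀ i j, r i j → ∀ a b, (pr b (p i)).1 ≠ (pr a (p j)).1 := by
    intro i j h a b
    have := hF2 j (fun k => p k.1) ⟨i, h⟩ a b
    rw [← hp j] at this
    exact this
  refine ⟨p, fun i => by rw [hp i]; exact hF1 i _, fun i j a b hij => ?_⟩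
  rcases trichotomous_of r i j with h | h | h
  · exact absurd hij (hne i j h b a)
  · exact h
  · exact absurd hij.symm (hne j i h a b)

theorem mk_E_le : #(E Q) ≤ 𝔠 := by
  refine (mk_subtype_le _).trans ?_
  rw [← power_def, mk_nat]
  simp

theorem mk_tasks_le : #(ℕ → ℕ → D Q × D Q) ≤ 𝔠 := by
  have h1 : #(D Q) ≤ 𝔠 := by
    have : #(D Q) = #(E Q × Bool) := rfl
    rw [this, mk_prod, lift_id, lift_id]
    refine (mul_le_mul' mk_E_le (((by simp : #Bool < ℵ₀).le).trans aleph0_le_continuum)).trans ?_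
    simp
  have h2 : #(D Q × D Q) ≤ 𝔠 := by
    rw [mk_prod, lift_id]
    refine (mul_le_mul' h1 h1).trans ?_
    simp
  rw [← power_def, ← power_def, mk_nat]
  have h3 : #(D Q × D Q) ^ ℵ₀ ≤ 𝔠 := (power_le_power_right h2).trans
    continuum_power_aleph0.le
  exact (power_le_power_right h3).trans continuum_power_aleph0.le

variable (Q) in
theorem exists_catch : ∃ L : Lad Q, Catch L := by
  classical
  obtain ⟨r, hr, ho⟩ := Cardinal.exists_ord_eq (E Q)
  have wf : WellFounded r := IsWellFounded.wf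
  let T := {s : ℕ → ℕ → D Q × D Q // Fat (clT (range (s 0)))}
  have hT : #T ≤ 𝔠 := (mk_subtype_le _).trans mk_tasks_le
  let R : T → Set (D Q × D Q) := fun t =>
    clT (range (t.1 0)) ∩ {p | ∀ n m a b, r (pr a (t.1 n m)).1 (pr b p).1}
  have hR : ∀ t, ∀ Y : Set (E Q), #Y < 𝔠 → ∃ p ∈ R t, ∀ a, (pr a p).1 ∉ Y := by
    intro t Y hY
    let B : Set (E Q) := ⋃ x : ℕ × ℕ × Bool, {y | ¬ r (pr x.2.2 (t.1 x.1 x.2.1)).1 y}
    have hB1 : ∀ a : E Q, #{x | ¬ r a x} < 𝔠 := by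
      intro a
      have h2 : {x | ¬ r a x} ⊆ insert a {x | r x a} := by
        intro x hx
        rcases trichotomous_of r a x with h | h | h
        · exact absurd h hx
        · exact Or.inl h.symm
        · exact Or.inr h
      have h3 : #{x | r x a} < 𝔠 := by
        have := card_typein_lt a ho
        rw [Ordinal.card_typein] at this
        exact this.trans_le mk_E_le
      refine (mk_le_mk_of_subset h2).trans_lt (mk_insert_le.trans_lt ?_)
      exact add_lt_of_lt aleph0_le_continuum h3 (one_lt_aleph0.trans_le aleph0_le_continuum)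
    have hB : #B < 𝔠 := by
      calc #B ≤ Cardinal.sum (fun x : ℕ × ℕ × Bool =>
            #{y | ¬ r (pr x.2.2 (t.1 x.1 x.2.1)).1 y}) := mk_iUnion_le_sum_mk
        _ < Cardinal.prod (fun _ : ℕ × ℕ × Bool => 𝔠) := sum_lt_prod _ _ (fun p => hB1 _)
        _ = 𝔠 := by simp
    have hYB : #(Y ∪ B : Set (E Q)) < 𝔠 :=
      (mk_union_le _ _).trans_lt (add_lt_of_lt aleph0_le_continuum hY hB)
    obtain ⟨p, hp, h1, h2⟩ := big (C := closure (J '' range (t.1 0))) isClosed_closure t.2 _ hYB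
    have h3 : ∀ b, (pr b p).1 ∉ Y ∪ B := by
      rintro (_ | _)
      · exact h1
      · exact h2
    refine ⟨p, ⟨hp, fun n m a b => ?_⟩, fun a ha => h3 a (Or.inl ha)⟩
    by_contra hcon
    exact h3 b (Or.inr (mem_iUnion.2 ⟨(n, m, a), hcon⟩))
  obtain ⟨p, hp1, hp2⟩ := choice hT R hR
  let nn : T → ℕ → ℕ := fun t k =>
    if p t ∈ clT (range (t.1 k.unpair.1)) then k.unpair.1 else 0
  have hl : ∀ t, ∃ q m, Ldr (p t) q m ∧ ∀ k, q k ∈ range (t.1 (nn t k)) := by
    intro t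
    refine exists_ldr (fun k => range (t.1 (nn t k))) (p t) (fun k => ?_) ?_
    · simp only [nn]
      split_ifs with h
      · exact h
      · exact (hp1 t).1
    · rintro k _ ⟨j, rfl⟩ i h
      have := (hp1 t).2 (nn t k) j i i
      rw [h] at this
      exact (wf.asymmetric _ _ this this)
  choose q m hq1 hq2 using hl
  let L : Lad Q :=
    { r := r
      wf := wf
      Λ := fun w k => {c | ∃ t i, w = pr i (p t) ∧ c = (pr i (q t k), m t k)}
      fin := by
        intro w k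
        by_cases h : ∃ t i, w = pr i (p t)
        · obtain ⟨t, i, rfl⟩ := h
          refine (Set.finite_range fun i : Bool => (pr i (q t k), m t k)).subset ?_
          rintro c ⟨t', i', h1, rfl⟩
          have := hp2 t t' i i' (by rw [h1])
          subst this
          exact ⟨i', rfl⟩
        · convert Set.finite_empty
          ext c
          simp only [mem_ofPred_eq, mem_empty_iff_false, iff_false]
          rintro ⟨t, i, h1, -⟩
          exact h ⟨t, i, h1⟩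
      hr := by
        rintro w k c ⟨t, i, rfl, rfl⟩
        obtain ⟨j, hj⟩ := hq2 t k
        rw [← hj]
        exact (hp1 t).2 _ _ _ _
      hb := by
        rintro w k c ⟨t, i, rfl, rfl⟩
        exact (hq1 t).hb k i
      ha := by
        rintro w k c ⟨t, i, rfl, rfl⟩
        exact (hq1 t).ha k i
      hk := by
        rintro w k c ⟨t, i, rfl, rfl⟩
        exact (hq1 t).hk k
      hf := by
        rintro w k c ⟨t, i, rfl, rfl⟩
        exact (hq1 t).hf k i
      ht := by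
        rintro w w' h1 - k l hkl c ⟨t, i, rfl, rfl⟩ c' ⟨t', i', rfl, rfl⟩
        have := hp2 t t' i i' h1
        subst this
        exact (hq1 t).ht k l hkl i i'
      hs := by
        rintro w w' h1 h2 k c ⟨t, i, rfl, rfl⟩ c' ⟨t', i', rfl, rfl⟩
        have := hp2 t t' i i' h1
        subst this
        refine ⟨rfl, ?_, fun _ => (hq1 t).hff k i i', fun _ => (hq1 t).hO k i⟩
        have h3 := (hq1 t).hg k
        cases i <;> cases i'
        · exact absurd rfl h2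
        · have h4 : g (p t).1 (p t).2 = f (pr false (p t)).1 := g_twin h2 h1
          rw [h4] at h3
          exact h3
        · have h4 : g (p t).2 (p t).1 = f (pr true (p t)).1 := g_twin h2 h1
          rw [g_comm (p t).1, h4, g_comm] at h3
          exact h3
        · exact absurd rfl h2 }
  refine ⟨L, ?_⟩
  intro s hs
  refine ⟨p ⟨s, hs⟩, (hp1 ⟨s, hs⟩).1, fun n hn N => ?_⟩
  have h1 : nn ⟨s, hs⟩ (Nat.pair n N) = n := by
    simp only [nn]
    rw [Nat.unpair_pair]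
    exact if_pos hn
  have h2 := hq2 ⟨s, hs⟩ (Nat.pair n N)
  rw [h1] at h2
  have hN : N ≤ Nat.pair n N := Nat.right_le_pair n N
  refine ⟨_, h2, ?_, ?_⟩
  · exact Mem.step _ _ (Nat.pair n N) (pr false (q ⟨s, hs⟩ (Nat.pair n N)), m ⟨s, hs⟩ (Nat.pair n N)) _
      ⟨⟨s, hs⟩, false, rfl, rfl⟩ hN (Mem.self _ _)
  · exact Mem.step _ _ (Nat.pair n N) (pr true (q ⟨s, hs⟩ (Nat.pair n N)), m ⟨s, hs⟩ (Nat.pair n N)) _
      ⟨⟨s, hs⟩, true, rfl, rfl⟩ hN (Mem.self _ _)

end Pool.Agent.U540.FD
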