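import Pool.Agent.U540.FD.Base

/-!
# Ladder topologies on `D Q`
-/

set_option autoImplicit false

namespace Pool.Agent.U540.FD

open Set Filter Topology TopologicalSpace

variable {Q : Type} [MetricSpace Q] [CompactSpace Q] [Nonempty Q]

theorem g_comm (u v : D Q) : g u v = g v u := by
  by_cases h : u.2 = v.2
  · rw [g_same h, g_same h.symm]
  by_cases h1 : u.1 = v.1
  · rw [g_twin h h1, g_twin (Ne.symm h) h1.symm, h1]
  have h2 : u.1.1 ≠ v.1.1 := fun h2 => h1 (Subtype.ext h2)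
  have h3 : ∀ i < fd u.1.1 v.1.1, u.1.1 i = v.1.1 i := fun i hi => fd_lt hi
  rw [g_fd h h3 (fd_ne h2), g_fd (Ne.symm h) (fun i hi => (h3 i hi).symm) (fd_ne h2).symm]
  by_cases h4 : fd u.1.1 v.1.1 = 0
  · simp [h4]
  · rw [if_neg h4, if_neg h4, h3 _ (by omega)]

variable (Q) in
/-- A ladder system on `D Q`. -/
structure Lad where
  r : E Q → E Q → Prop
  wf : WellFounded r
  Λ : D Q → ℕ → Set (D Q × ℕ)
  fin : ∀ w k, (Λ w k).Finite
  hr : ∀ w k, ∀ c ∈ Λ w k, r c.1.1 w.1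
  hb : ∀ w k, ∀ c ∈ Λ w k, c.1.2 = w.2
  ha : ∀ w k, ∀ c ∈ Λ w k, ∀ i < k, c.1.1.1 i = w.1.1 i
  hk : ∀ w k, ∀ c ∈ Λ w k, k ≤ c.2
  hf : ∀ w k, ∀ c ∈ Λ w k, fd c.1.1.1 w.1.1 < c.2
  ht : ∀ w w', w.1 = w'.1 → w.2 ≠ w'.2 → ∀ k l, k < l → ∀ c ∈ Λ w k, ∀ c' ∈ Λ w' l,
    fd c.1.1.1 w.1.1 < fd c'.1.1.1 w'.1.1
  hs : ∀ w w', w.1 = w'.1 → w.2 ≠ w'.2 → ∀ k, ∀ c ∈ Λ w k, ∀ c' ∈ Λ w' k,
    c.2 = c'.2 ∧ dist (g c.1 c'.1) (f w.1) ≤ 1 / ((k : ℝ) + 1) ∧
      (c.1.1 ≠ c'.1.1 → fd c.1.1.1 c'.1.1.1 < c.2) ∧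
      (c.1.1 = c'.1.1 → Om c.1.1 c.2 (1 / ((k : ℝ) + 1)))

/-- The space. -/
def Sp (_ : Lad Q) : Type := D Q

/-- The identity map. -/
def e {L : Lad Q} (x : Sp L) : D Q := x

theorem e_inj {L : Lad Q} : Function.Injective (e (L := L)) := fun _ _ h => h

/-- Membership in the basic neighbourhoods. -/
inductive Mem (L : Lad Q) : D Q → ℕ → D Q → Prop
  | self (x : D Q) (n : ℕ) : Mem L x n x
  | step (x : D Q) (n k : ℕ) (c : D Q × ℕ) (y : D Q) : c ∈ L.Λ x k → n ≤ k → Mem L c.1 c.2 y →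
      Mem L x n y

variable {L : Lad Q}

theorem Mem.agree {x : D Q} {n : ℕ} {y : D Q} (h : Mem L x n y) :
    y.2 = x.2 ∧ ∀ i < n, y.1.1 i = x.1.1 i := by
  induction h with
  | self x n => exact ⟨rfl, fun _ _ => rfl⟩
  | step x n k c y hc hk _ ih =>
    refine ⟨ih.1.trans (L.hb x k c hc), fun i hi => ?_⟩
    rw [ih.2 i (by have := L.hk x k c hc; omega)]
    exact L.ha x k c hc i (by omega)

theorem r_irrefl (x : E Q) : ¬ L.r x x := fun h => L.wf.asymmetric _ _ h h

theorem lad_ne {w : D Q} {k : ℕ} {c : D Q × ℕ} (hc : c ∈ L.Λ w k) : c.1.1.1 ≠ w.1.1 := by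
  intro h
  have := L.hr w k c hc
  rw [show c.1.1 = w.1 from Subtype.ext h] at this
  exact r_irrefl _ this

theorem step_fd {w : D Q} {k : ℕ} {c : D Q × ℕ} {γ : D Q} (hc : c ∈ L.Λ w k)
    (hγ : Mem L c.1 c.2 γ) : k ≤ fd c.1.1.1 w.1.1 ∧ (∀ i < fd c.1.1.1 w.1.1, γ.1.1 i = w.1.1 i) ∧
      γ.1.1 (fd c.1.1.1 w.1.1) ≠ w.1.1 (fd c.1.1.1 w.1.1) ∧ γ.2 = w.2 := by
  have h1 := L.hf w k c hc
  refine ⟨le_fd (lad_ne hc) (L.ha w k c hc), fun i hi => ?_, ?_, ?_⟩
  · rw [hγ.agree.2 i (by omega)]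
    exact fd_lt hi
  · rw [hγ.agree.2 _ h1]
    exact fd_ne (lad_ne hc)
  · rw [hγ.agree.1, L.hb w k c hc]

/-- The oscillation of `g` at twin pairs. -/
theorem osc (x : E Q) : ∀ u u' : D Q, u.1 = x → u'.1 = x → u.2 ≠ u'.2 → ∀ n, 1 ≤ n → ∀ ε : ℝ,
    Om x n ε → ∀ γ γ', Mem L u n γ → Mem L u' n γ' → dist (g γ γ') (f x) ≤ ε := by
  induction x using L.wf.induction with
  | _ x ih =>
  intro u u' hu hu' hne n hn ε hO γ γ' hγ hγ'
  have hε : 0 < ε := lt_of_lt_of_le (by positivity) hO.2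
  have key : ∀ (γ γ' : D Q) (j : ℕ), γ.2 ≠ γ'.2 → n ≤ j → (∀ i < j, γ.1.1 i = x.1 i) →
      (∀ i < j, γ'.1.1 i = x.1 i) → γ.1.1 j ≠ γ'.1.1 j → dist (g γ γ') (f x) ≤ ε := by
    intro γ γ' j h1 h2 h3 h4 h5
    rw [g_fd h1 (fun i hi => (h3 i hi).trans (h4 i hi).symm) h5, if_neg (by omega),
      h3 (j - 1) (by omega)]
    exact hO.1 _ (by omega)
  subst hu
  cases hγ with
  | self =>
    cases hγ' with
    | self =>
      rw [g_twin hne hu'.symm, dist_self]; exact hε.le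
    | step _ _ k c _ hc hk hm =>
      obtain ⟨h1, h2, h3, h4⟩ := step_fd hc hm
      rw [hu'] at h1 h2 h3
      exact key _ _ _ (by rw [h4]; exact hne) (hk.trans h1) (fun _ _ => rfl) h2 h3.symm
  | step _ _ k c _ hc hk hm =>
    obtain ⟨h1, h2, h3, h4⟩ := step_fd hc hm
    cases hγ' with
    | self =>
      exact key _ _ _ (by rw [h4]; exact hne) (hk.trans h1) h2 (fun _ _ => by rw [hu'])
        (by rw [hu']; exact h3)
    | step _ _ k' c' _ hc' hk' hm' =>
      obtain ⟨h1', h2', h3', h4'⟩ := step_fd hc' hm'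
      rcases lt_trichotomy k k' with hlt | heq | hlt
      · have h5 := L.ht u u' hu'.symm hne k k' hlt c hc c' hc'
        rw [hu'] at h1' h2' h3' h5
        refine key _ _ _ (by rw [h4, h4']; exact hne) (hk.trans h1) h2
          (fun i hi => h2' i (by omega)) ?_
        rw [h2' _ h5]; exact h3
      · subst heq
        obtain ⟨h5, h6, h7, h8⟩ := L.hs u u' hu'.symm hne k c hc c' hc'
        have hkn : (1 : ℝ) / ((k : ℝ) + 1) ≤ 1 / ((n : ℝ) + 1) := by
          apply one_div_le_one_div_of_le (by positivity)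
          have : (n : ℝ) ≤ k := by exact_mod_cast hk
          linarith
        have hεn : (1 : ℝ) / ((n : ℝ) + 1) + 1 / ((n : ℝ) + 1) ≤ ε := by
          refine le_trans (le_of_eq ?_) hO.2
          ring
        by_cases hcc : c.1.1 = c'.1.1
        · have h9 : c.1.2 ≠ c'.1.2 := by
            rw [L.hb _ _ _ hc, L.hb _ _ _ hc']; exact hne
          have hc2 : 1 ≤ c.2 := by have := L.hf u k c hc; omega
          have h10 := ih c.1.1 (L.hr u k c hc) c.1 c'.1 rfl hcc.symm h9 c.2 hc2 _ (h8 hcc)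
            γ γ' hm (by rw [h5]; exact hm')
          rw [g_twin h9 hcc] at h6
          have := dist_triangle (g γ γ') (f c.1.1) (f u.1)
          linarith
        · have h9 := h7 hcc
          have hcc' : c.1.1.1 ≠ c'.1.1.1 := fun h => hcc (Subtype.ext h)
          have h10 : ∀ i ≤ fd c.1.1.1 c'.1.1.1, γ.1.1 i = c.1.1.1 i := fun i hi =>
            hm.agree.2 i (by omega)
          have h11 : ∀ i ≤ fd c.1.1.1 c'.1.1.1, γ'.1.1 i = c'.1.1.1 i := fun i hi =>
            hm'.agree.2 i (by omega)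
          have h12 : g γ γ' = g c.1 c'.1 := by
            rw [g_fd (j := fd c.1.1.1 c'.1.1.1) (by rw [h4, h4']; exact hne)
              (fun i hi => by rw [h10 i hi.le, h11 i hi.le]; exact fd_lt hi)
              (by rw [h10 _ le_rfl, h11 _ le_rfl]; exact fd_ne hcc'),
              g_fd (j := fd c.1.1.1 c'.1.1.1)
              (by rw [L.hb _ _ _ hc, L.hb _ _ _ hc']; exact hne)
              (fun i hi => fd_lt hi) (fd_ne hcc')]
            by_cases hz : fd c.1.1.1 c'.1.1.1 = 0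
            · simp [hz]
            · rw [if_neg hz, if_neg hz, h10 _ (by omega)]
          rw [h12]
          have : (0 : ℝ) < 1 / ((n : ℝ) + 1) := by positivity
          linarith
      · have h5 := L.ht u' u hu' hne.symm k' k hlt c' hc' c hc
        rw [hu'] at h1' h2' h3' h5
        refine key _ _ _ (by rw [h4, h4']; exact hne) (hk'.trans h1')
          (fun i hi => h2 i (by omega)) h2' ?_
        rw [h2 _ h5]; exact h3'.symm

/-- The basic neighbourhoods. -/
def U (x : Sp L) (n : ℕ) : Set (Sp L) := {y | Mem L x n y}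

theorem self_mem (x : Sp L) (n : ℕ) : x ∈ U x n := Mem.self _ _

theorem U_anti (x : Sp L) {n m : ℕ} (h : n ≤ m) : U x m ⊆ U x n := by
  intro y hy
  cases hy with
  | self => exact Mem.self _ _
  | step _ _ k c _ hP hk hm => exact Mem.step _ _ k c _ hP (h.trans hk) hm

theorem U_step (x : Sp L) {n k : ℕ} {c : D Q × ℕ} (hc : c ∈ L.Λ x k) (h : n ≤ k) :
    U (L := L) c.1 c.2 ⊆ U x n := fun _ hy => Mem.step _ _ k c _ hc h hy

theorem U_nbhd_aux {x : D Q} {n : ℕ} {y : D Q} (h : Mem L x n y) :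
    ∃ m, U (L := L) y m ⊆ U (L := L) x n := by
  induction h with
  | self x n => exact ⟨n, subset_rfl⟩
  | step x n k c y hP hk _ ih =>
    obtain ⟨m, hm⟩ := ih
    exact ⟨m, hm.trans (U_step (L := L) x hP hk)⟩

instance : TopologicalSpace (Sp L) where
  IsOpen O := ∀ x ∈ O, ∃ n, U x n ⊆ O
  isOpen_univ := fun x _ => ⟨0, subset_univ _⟩
  isOpen_inter := by
    intro s t hs ht x hx
    obtain ⟨n, hn⟩ := hs x hx.1
    obtain ⟨m, hm⟩ := ht x hx.2
    exact ⟨max n m, fun y hy => ⟨hn (U_anti x (le_max_left _ _) hy),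
      hm (U_anti x (le_max_right _ _) hy)⟩⟩
  isOpen_sUnion := by
    intro S hS x hx
    obtain ⟨s, hs, hxs⟩ := hx
    obtain ⟨n, hn⟩ := hS s hs x hxs
    exact ⟨n, fun y hy => ⟨s, hs, hn hy⟩⟩

theorem isOpen_iff' {O : Set (Sp L)} : IsOpen O ↔ ∀ x ∈ O, ∃ n, U x n ⊆ O := Iff.rfl

theorem isOpen_U (x : Sp L) (n : ℕ) : IsOpen (U x n) := fun _ hy => U_nbhd_aux hy

theorem U_mem (x : Sp L) (n : ℕ) : U x n ∈ 𝓝 x := (isOpen_U x n).mem_nhds (self_mem x n)

theorem mem_nhds_iff' {x : Sp L} {N : Set (Sp L)} : N ∈ 𝓝 x ↔ ∃ n, U x n ⊆ N := by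
  rw [mem_nhds_iff]
  constructor
  · rintro ⟨O, hO, h1, h2⟩
    obtain ⟨n, hn⟩ := h1 x h2
    exact ⟨n, hn.trans hO⟩
  · rintro ⟨n, hn⟩
    exact ⟨U x n, hn, isOpen_U x n, self_mem x n⟩

theorem continuous_co : Continuous (fun x : Sp L => co (e x)) := by
  refine Continuous.prodMk (continuous_pi fun i => ?_) ?_
  · rw [continuous_iff_continuousAt]
    intro x
    have h : (fun y : Sp L => (e y).1.1 i) =ᶠ[𝓝 x] fun _ => (e x).1.1 i := by
      filter_upwards [U_mem x (i + 1)] with y hy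
      exact (Mem.agree hy).2 i (by omega)
    exact h.continuousAt
  · rw [continuous_iff_continuousAt]
    intro x
    have h : (fun y : Sp L => (e y).2) =ᶠ[𝓝 x] fun _ => (e x).2 := by
      filter_upwards [U_mem x 0] with y hy
      exact (Mem.agree hy).1
    exact h.continuousAt

theorem continuous_g : Continuous (fun p : Sp L × Sp L => g (e p.1) (e p.2)) := by
  rw [continuous_iff_continuousAt]
  rintro ⟨u, v⟩
  have hnb : ∀ n m, U u n ×ˢ U v m ∈ 𝓝 (u, v) := fun n m => prod_mem_nhds (U_mem u n) (U_mem v m)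
  by_cases h : (e u).2 = (e v).2
  · have h1 : (fun p : Sp L × Sp L => g (e p.1) (e p.2)) =ᶠ[𝓝 (u, v)] fun _ => q0 Q := by
      filter_upwards [hnb 0 0] with p hp
      apply g_same
      rw [show (e p.1).2 = (e u).2 from (Mem.agree hp.1).1,
        show (e p.2).2 = (e v).2 from (Mem.agree hp.2).1, h]
    exact h1.continuousAt
  by_cases h1 : (e u).1 = (e v).1
  · rw [Metric.continuousAt_iff']
    intro ε hε
    obtain ⟨n0, hn0⟩ := exists_Om (e u).1 (half_pos hε)
    filter_upwards [hnb (max n0 1) (max n0 1)] with p hp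
    have h2 := osc (L := L) (e u).1 (e u) (e v) rfl h1.symm h (max n0 1) (le_max_right _ _) (ε / 2)
      (hn0 _ (le_max_left _ _)) (e p.1) (e p.2) hp.1 hp.2
    show dist (g (e p.1) (e p.2)) (g (e u) (e v)) < ε
    rw [g_twin h h1]
    linarith
  · have h2 : (e u).1.1 ≠ (e v).1.1 := fun h2 => h1 (Subtype.ext h2)
    set j := fd (e u).1.1 (e v).1.1 with hj
    have h3 : ∀ i < j, (e u).1.1 i = (e v).1.1 i := fun i hi => fd_lt hi
    have h4 : (fun p : Sp L × Sp L => g (e p.1) (e p.2)) =ᶠ[𝓝 (u, v)]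
        fun _ => if j = 0 then q0 Q else qs Q ((e u).1.1 (j - 1)) := by
      filter_upwards [hnb (j + 1) (j + 1)] with p hp
      have h5 := Mem.agree hp.1
      have h6 := Mem.agree hp.2
      have h7 : ∀ i ≤ j, (e p.1).1.1 i = (e u).1.1 i := fun i hi => h5.2 i (by omega)
      have h8 : ∀ i ≤ j, (e p.2).1.1 i = (e v).1.1 i := fun i hi => h6.2 i (by omega)
      rw [g_fd (j := j) (by
        rw [show (e p.1).2 = (e u).2 from h5.1, show (e p.2).2 = (e v).2 from h6.1]; exact h)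
        (fun i hi => by rw [h7 i hi.le, h8 i hi.le]; exact h3 i hi)
        (by rw [h7 j le_rfl, h8 j le_rfl]; exact fd_ne h2)]
      by_cases hz : j = 0
      · simp [hz]
      · rw [if_neg hz, if_neg hz, h7 _ (by omega)]
    exact h4.continuousAt

/-- `J` is continuous for the ladder topology. -/
theorem continuous_J : Continuous (fun p : Sp L × Sp L => J (e p.1, e p.2)) := by
  unfold J
  exact (continuous_co.comp continuous_fst).prodMk
    ((continuous_co.comp continuous_snd).prodMk continuous_g)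

instance : T2Space (Sp L) :=
  T2Space.of_injective_continuous (co_inj.comp e_inj) continuous_co

theorem isCompact_U (x : Sp L) : ∀ n, IsCompact (U x n) := by
  have hwf : WellFounded (InvImage L.r (fun w : D Q => w.1)) := InvImage.wf _ L.wf
  have key : ∀ x : D Q, ∀ n, IsCompact (U (L := L) x n) := by
    intro x
    induction x using hwf.induction with
    | _ x ih =>
      intro n
      apply isCompact_of_finite_subcover
      intro ι W hW hc
      obtain ⟨i₀, hi₀⟩ := mem_iUnion.1 (hc (self_mem (L := L) x n))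
      obtain ⟨m, hm⟩ := hW i₀ x hi₀
      have hK : IsCompact (⋃ k ∈ {k : ℕ | n ≤ k ∧ k < m}, ⋃ c ∈ L.Λ x k,
          U (L := L) c.1 c.2) := by
        apply Set.Finite.isCompact_biUnion
        · exact (Set.finite_lt_nat m).subset fun k hk => hk.2
        · intro k _
          apply Set.Finite.isCompact_biUnion (L.fin x k)
          intro c hc
          exact ih _ (L.hr x k c hc) _
      have hK2 : (⋃ k ∈ {k : ℕ | n ≤ k ∧ k < m}, ⋃ c ∈ L.Λ x k, U (L := L) c.1 c.2) ⊆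
          ⋃ i, W i := by
        refine Set.iUnion₂_subset fun k hk => Set.iUnion₂_subset fun c hcc => ?_
        exact (U_step (L := L) x hcc hk.1).trans hc
      obtain ⟨t, ht⟩ := hK.elim_finite_subcover W hW hK2
      classical
      refine ⟨insert i₀ t, ?_⟩
      intro y hy
      rw [mem_iUnion₂]
      cases hy with
      | self => exact ⟨i₀, Finset.mem_insert_self _ _, hi₀⟩
      | step _ _ k c _ hcc hk hy =>
        by_cases hkm : k < m
        · have := ht (mem_iUnion₂.2 ⟨k, ⟨hk, hkm⟩, mem_iUnion₂.2 ⟨c, hcc, hy⟩⟩)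
          obtain ⟨i, hi, hyi⟩ := mem_iUnion₂.1 this
          exact ⟨i, Finset.mem_insert_of_mem hi, hyi⟩
        · exact ⟨i₀, Finset.mem_insert_self _ _, hm (U_step (L := L) x hcc (not_lt.1 hkm) hy)⟩
  exact key x

theorem isClosed_U (x : Sp L) (n : ℕ) : IsClosed (U x n) := (isCompact_U x n).isClosed

theorem isClopen_U (x : Sp L) (n : ℕ) : IsClopen (U x n) := ⟨isClosed_U x n, isOpen_U x n⟩

theorem closure_subset_clT (S : Set (Sp L × Sp L)) :
    closure S ⊆ clT (Q := Q) S := by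
  have h : IsClosed ((fun p : Sp L × Sp L => J (e p.1, e p.2)) ⁻¹' closure (J '' S)) :=
    isClosed_closure.preimage continuous_J
  exact closure_minimal (fun p hp => subset_closure ⟨p, hp, rfl⟩) h

end Pool.Agent.U540.FD
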