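import Pool.Agent.U540.FD.Ex

/-!
# Dimension zero, and normality of the square
-/

set_option autoImplicit false

namespace Pool.Agent.U540.FD

open Set Filter Topology TopologicalSpace

variable {Q : Type} [MetricSpace Q] [CompactSpace Q] [Nonempty Q] {L : Lad Q}

theorem mem_closure_of (S : Set (Sp L × Sp L)) (p : Sp L × Sp L)
    (h : ∀ N, ∃ q ∈ S, q.1 ∈ U p.1 N ∧ q.2 ∈ U p.2 N) : p ∈ closure S := by
  rw [mem_closure_iff_nhds]
  intro W hW
  obtain ⟨A, hA, B, hB, hAB⟩ := mem_nhds_prod_iff.1 hW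
  obtain ⟨a, ha⟩ := mem_nhds_iff'.1 hA
  obtain ⟨b, hb⟩ := mem_nhds_iff'.1 hB
  obtain ⟨q, hq, h7, h8⟩ := h (max a b)
  exact ⟨q, hAB ⟨ha (U_anti p.1 (le_max_left a b) h7),
    hb (U_anti p.2 (le_max_right a b) h8)⟩, hq⟩

theorem catch' (hL : Catch L) (S : ℕ → Set (Sp L × Sp L)) {C : Set (M0 Q)} (hC : IsClosed C)
    (hf : Fat (Q := Q) (J ⁻¹' C)) :
    ∃ p : Sp L × Sp L, J (Q := Q) p ∈ C ∧ ∀ n, p ∈ clT (Q := Q) (S n) → p ∈ closure (S n) := by
  have hne : (J ⁻¹' C : Set (D Q × D Q)).Nonempty := by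
    obtain ⟨p, hp, -⟩ := hf ∅ countable_empty
    exact ⟨p, hp⟩
  obtain ⟨s0, h1, h2⟩ := exists_seq (J ⁻¹' C : Set (D Q × D Q)) hne
  have h3 : ∀ n, ∃ s : ℕ → D Q × D Q, (∃ x, x ∈ clT (Q := Q) (S n)) →
      (∀ k, s k ∈ S n) ∧ clT (range s) = clT (Q := Q) (S n) := by
    intro n
    by_cases h : (S n).Nonempty
    · obtain ⟨s, h4, h5⟩ := exists_seq (Q := Q) (S n) h
      exact ⟨s, fun _ => ⟨h4, h5⟩⟩
    · refine ⟨s0, fun h6 => ?_⟩
      rw [not_nonempty_iff_eq_empty] at h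
      obtain ⟨x, hx⟩ := h6
      have h7 : x ∈ clT (∅ : Set (D Q × D Q)) := by rw [h] at hx; exact hx
      simp [clT] at h7
  choose s hs using h3
  have hR : clT (J ⁻¹' C : Set (D Q × D Q)) ⊆ J ⁻¹' C := by
    intro p hp
    exact closure_minimal (image_preimage_subset _ _) hC hp
  obtain ⟨p, hp1, hp2⟩ := hL (fun n => Nat.casesOn n s0 s) (by
    show Fat (clT (range s0))
    rw [h2]
    intro Y hY
    obtain ⟨p, hp, h⟩ := hf Y hY
    exact ⟨p, subset_clT _ hp, h⟩)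
  refine ⟨p, hR (by rw [← h2]; exact hp1), fun n hn => ?_⟩
  obtain ⟨h4, h5⟩ := hs n ⟨p, hn⟩
  have h6 := hp2 (n + 1) (by
    show p ∈ clT (range (s n))
    rw [h5]; exact hn)
  refine mem_closure_of (S n) p fun N => ?_
  obtain ⟨q, ⟨k, rfl⟩, h7, h8⟩ := h6 N
  exact ⟨_, h4 k, h7, h8⟩

/-- Closure in the topology of words. -/
def cl0 (F : Set (Sp L)) : Set (Sp L) := {x | co (e x) ∈ closure ((fun y : Sp L => co (e y)) '' F)}

theorem subset_cl0 (F : Set (Sp L)) : F ⊆ cl0 F := fun _ hx => subset_closure ⟨_, hx, rfl⟩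

theorem countable_cl0 (hL : Catch L) (F : ℕ → Set (Sp L)) (hF : ∀ n, IsClosed (F n))
    (h0 : (⋂ n, F n) = ∅) : (⋂ n, cl0 (F n)).Countable := by
  by_contra hcon
  let C : Set (M0 Q) := {y | y.1 = y.2.1 ∧ ∀ n, y.1 ∈ closure ((fun y : Sp L => co (e y)) '' F n)}
  have hC : IsClosed C := by
    refine (isClosed_eq (by fun_prop) (by fun_prop)).inter ?_
    have : {y : M0 Q | ∀ n, y.1 ∈ closure ((fun y : Sp L => co (e y)) '' F n)} =
      ⋂ n, (fun y : M0 Q => y.1) ⁻¹' closure ((fun y : Sp L => co (e y)) '' F n) := by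
      ext y; simp
    have h2 : IsClosed {y : M0 Q | ∀ n, y.1 ∈ closure ((fun y : Sp L => co (e y)) '' F n)} := by
      rw [this]
      exact isClosed_iInter fun n => isClosed_closure.preimage (by fun_prop)
    exact h2
  have hf : Fat (Q := Q) (J ⁻¹' C) := by
    intro Y hY
    by_contra h
    push Not at h
    apply hcon
    have h1 : (⋂ n, cl0 (F n)) ⊆ (fun y : E Q × Bool => (y : D Q)) '' (Y ×ˢ univ) := by
      intro x hx
      rw [mem_iInter] at hx
      refine ⟨x, ⟨?_, mem_univ _⟩, rfl⟩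
      by_contra hxY
      exact hxY (h ((x, x) : D Q × D Q) ⟨rfl, hx⟩ hxY)
    exact ((hY.prod countable_univ).image _).mono h1
  obtain ⟨p, ⟨h1, h2⟩, h3⟩ := catch' hL (fun n => (fun y : Sp L => (y, y)) '' F n) hC hf
  have h4 : p.1 = p.2 := co_inj h1
  have h5 : p.1 ∈ ⋂ n, F n := by
    rw [mem_iInter]
    intro n
    have h6 : p ∈ clT (Q := Q) ((fun y : Sp L => (y, y)) '' F n) := by
      show J p ∈ closure _
      have h7 : J (Q := Q) p = (co (e p.1), co (e p.1), q0 Q) := by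
        have : p = (p.1, p.1) := Prod.ext rfl h4.symm
        rw [this]
        show (_, _, _) = _
        rw [g_same rfl]
        rfl
      rw [h7]
      have h8 : Continuous (fun z : (ℕ → Al) × Bool => ((z, z, q0 Q) : M0 Q)) := by fun_prop
      refine map_mem_closure (f := fun z : (ℕ → Al) × Bool => ((z, z, q0 Q) : M0 Q)) h8 (h2 n) ?_
      rintro _ ⟨y, hy, rfl⟩
      refine ⟨(y, y), ⟨y, hy, rfl⟩, ?_⟩
      show (_, _, _) = _
      rw [g_same rfl]
      rfl
    have h7 := h3 n h6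
    have h8 : IsClosed ((fun q : Sp L × Sp L => q.1) ⁻¹' F n) := (hF n).preimage continuous_fst
    have h9 : closure ((fun y : Sp L => (y, y)) '' F n) ⊆ (fun q : Sp L × Sp L => q.1) ⁻¹' F n :=
      closure_minimal (by rintro _ ⟨y, hy, rfl⟩; exact hy) h8
    exact h9 h7
  rw [h0] at h5
  exact h5

/-- Cylinders. -/
def cyl (c : (Σ n : ℕ, Fin n → Al) × Bool) : Set (Sp L) :=
  {x | (∀ i : Fin c.1.1, (e x).1.1 i = c.1.2 i) ∧ (e x).2 = c.2}

theorem isClopen_cyl (c : (Σ n : ℕ, Fin n → Al) × Bool) : IsClopen (cyl (L := L) c) := by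
  have h0 : Continuous (fun x : Sp L => ((fun i : Fin c.1.1 => (e x).1.1 i, (e x).2) :
      (Fin c.1.1 → Al) × Bool)) := by
    have := continuous_co (L := L)
    refine Continuous.prodMk (continuous_pi fun i => ?_) ?_
    · exact (continuous_apply _).comp (continuous_fst.comp this)
    · exact (show Continuous (fun x : Sp L => (co (e x)).2) from continuous_snd.comp this)
  have h1 := (isClopen_discrete ({(c.1.2, c.2)} : Set ((Fin c.1.1 → Al) × Bool))).preimage h0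
  convert h1 using 1
  ext x
  simp only [cyl, mem_ofPred_eq, mem_preimage, mem_singleton_iff, Prod.mk.injEq]
  rw [funext_iff]

theorem exists_cyl (x : Sp L) {F : Set (Sp L)} (h : x ∉ cl0 F) :
    ∃ c, x ∈ cyl c ∧ Disjoint (cyl c) F := by
  have h1 : (closure ((fun y : Sp L => co (e y)) '' F))ᶜ ∈ 𝓝 (co (e x)) :=
    isClosed_closure.isOpen_compl.mem_nhds h
  rw [show co (e x) = ((co (e x)).1, (co (e x)).2) from rfl] at h1
  obtain ⟨u, hu, v, hv, huv⟩ := mem_nhds_prod_iff.1 h1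
  obtain ⟨t, ⟨y, n, rfl⟩, ht1, ht2⟩ :=
    (PiNat.isTopologicalBasis_cylinders (fun _ => Al)).mem_nhds_iff.1 hu
  refine ⟨(⟨n, fun i => (e x).1.1 i⟩, (e x).2), ⟨fun _ => rfl, rfl⟩, ?_⟩
  rw [disjoint_left]
  rintro z ⟨hz1, hz2⟩ hzF
  refine @huv (co (e z)) ⟨ht2 ?_, ?_⟩ (subset_closure ⟨z, hzF, rfl⟩)
  · rw [PiNat.mem_cylinder_iff]
    intro i hi
    rw [PiNat.mem_cylinder_iff] at ht1
    rw [← ht1 i hi]
    exact hz1 ⟨i, hi⟩
  · show (e z).2 ∈ v
    rw [show (e z).2 = (e x).2 from hz2]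
    exact mem_of_mem_nhds hv

/-- Finite open covers have disjoint clopen refinements. -/
theorem dim_zero (hL : Catch L) (m : ℕ) (O : Fin m → Set (Sp L)) (hO : ∀ i, IsOpen (O i))
    (hc : (⋃ i, O i) = univ) : ∃ V : Fin m → Set (Sp L), (∀ i, IsClopen (V i)) ∧
      (∀ i, V i ⊆ O i) ∧ (⋃ i, V i) = univ ∧ ∀ x i j, x ∈ V i → x ∈ V j → i = j := by
  classical
  let F : ℕ → Set (Sp L) := fun n => if h : n < m then (O ⟨n, h⟩)ᶜ else univ
  have hF : ∀ n, IsClosed (F n) := by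
    intro n
    simp only [F]
    split_ifs with h
    · exact (hO _).isClosed_compl
    · exact isClosed_univ
  have h0 : (⋂ n, F n) = ∅ := by
    rw [eq_empty_iff_forall_notMem]
    intro x hx
    rw [mem_iInter] at hx
    obtain ⟨i, hi⟩ := mem_iUnion.1 (hc ▸ mem_univ x : x ∈ ⋃ i, O i)
    have := hx i
    simp only [F, i.2, dif_pos] at this
    exact this hi
  have hK := countable_cl0 hL F hF h0
  have hU : ∀ x : Sp L, ∃ n i, U x n ⊆ O i := by
    intro x
    obtain ⟨i, hi⟩ := mem_iUnion.1 (hc ▸ mem_univ x : x ∈ ⋃ i, O i)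
    obtain ⟨n, hn⟩ := hO i x hi
    exact ⟨n, i, hn⟩
  choose n hn using hU
  let 𝒞 : Set (Set (Sp L)) := {c | (∃ i, c ⊆ O i) ∧ c ∈ range (cyl (L := L))} ∪
    (fun x => U x (n x)) '' (⋂ n, cl0 (F n))
  have h𝒞 : 𝒞.Countable := by
    refine Countable.union ((countable_range _).mono fun c hc => hc.2) (hK.image _)
  obtain ⟨u, hu⟩ := (h𝒞.insert ∅).exists_eq_range (insert_nonempty _ _)
  have hu1 : ∀ j, IsClopen (u j) ∧ ((u j).Nonempty → ∃ i, u j ⊆ O i) := by
    intro j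
    have : u j ∈ insert ∅ 𝒞 := hu ▸ mem_range_self j
    rcases this with h | h | h
    · rw [h]; exact ⟨isClopen_empty, fun h => absurd h not_nonempty_empty⟩
    · obtain ⟨h1, c, hc⟩ := h
      refine ⟨?_, fun _ => h1⟩
      rw [← hc]; exact isClopen_cyl c
    · obtain ⟨x, hx, hxu⟩ := h
      rw [← hxu]
      exact ⟨isClopen_U _ _, fun _ => hn x⟩
  have hu2 : ∀ x, ∃ j, x ∈ u j := by
    intro x
    have : ∃ c ∈ 𝒞, x ∈ c := by
      by_cases hx : x ∈ ⋂ n, cl0 (F n)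
      · exact ⟨_, Or.inr ⟨x, hx, rfl⟩, self_mem _ _⟩
      · rw [mem_iInter, not_forall] at hx
        obtain ⟨k, hk⟩ := hx
        obtain ⟨c, hc1, hc2⟩ := exists_cyl x hk
        refine ⟨_, Or.inl ⟨?_, c, rfl⟩, hc1⟩
        simp only [F] at hc2
        split_ifs at hc2 with h
        · exact ⟨⟨k, h⟩, disjoint_compl_right_iff_subset.1 hc2⟩
        · exact absurd hc1 (by rw [disjoint_univ.1 hc2]; simp)
    obtain ⟨c, hc, hxc⟩ := this
    have : c ∈ range u := hu ▸ mem_insert_of_mem _ hc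
    obtain ⟨j, rfl⟩ := this
    exact ⟨j, hxc⟩
  let V : Fin m → Set (Sp L) := fun i => ⋃ j ∈ {j : ℕ | ∃ h : ∃ i, u j ⊆ O i, h.choose = i},
    (u j \ ⋃ k ∈ {k | k < j}, u k)
  have hVo : ∀ i, IsOpen (V i) := by
    intro i
    refine isOpen_biUnion fun j _ => (hu1 j).1.2.sdiff ?_
    exact (Set.finite_lt_nat j).isClosed_biUnion fun k _ => (hu1 k).1.1
  have hVd : ∀ x i j, x ∈ V i → x ∈ V j → i = j := by
    intro x i i' h h'
    obtain ⟨j, ⟨h1, h2⟩, h3, h4⟩ := mem_iUnion₂.1 h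
    obtain ⟨j', ⟨h1', h2'⟩, h3', h4'⟩ := mem_iUnion₂.1 h'
    have : j = j' := by
      rcases lt_trichotomy j j' with h5 | h5 | h5
      · exact absurd (mem_biUnion (x := j) (show j < j' from h5) h3) h4'
      · exact h5
      · exact absurd (mem_biUnion (x := j') (show j' < j from h5) h3') h4
    subst this
    rw [← h2, ← h2']
  have hVc : (⋃ i, V i) = univ := by
    rw [eq_univ_iff_forall]
    intro x
    have h1 := Nat.find_spec (hu2 x)
    have h2 := (hu1 (Nat.find (hu2 x))).2 ⟨x, h1⟩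
    refine mem_iUnion.2 ⟨h2.choose, mem_biUnion (x := Nat.find (hu2 x)) ⟨h2, rfl⟩ ⟨h1, ?_⟩⟩
    intro h3
    obtain ⟨k, hk, hxk⟩ := mem_iUnion₂.1 h3
    exact Nat.find_min (hu2 x) hk hxk
  refine ⟨V, fun i => ⟨?_, hVo i⟩, ?_, hVc, hVd⟩
  · have : V i = (⋃ j ∈ {j | j ≠ i}, V j)ᶜ := by
      ext x
      rw [mem_compl_iff]
      constructor
      · intro hx hx2
        obtain ⟨j, hj, hxj⟩ := mem_iUnion₂.1 hx2
        exact hj (hVd x j i hxj hx)
      · intro hx
        obtain ⟨j, hj⟩ := mem_iUnion.1 (hVc ▸ mem_univ x : x ∈ ⋃ i, V i)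
        by_cases hji : j = i
        · rw [← hji]; exact hj
        · exact absurd (mem_biUnion (x := j) (show j ≠ i from hji) hj) hx
    rw [this]
    exact (isOpen_biUnion fun j _ => hVo j).isClosed_compl
  · intro i x hx
    obtain ⟨j, ⟨h1, h2⟩, h3, h4⟩ := mem_iUnion₂.1 hx
    rw [← h2]
    exact h1.choose_spec h3

theorem sepCover {X : Type} [TopologicalSpace X] {s t : Set X} {C : Set (Set X)}
    (hC : C.Countable) (h1 : s ⊆ ⋃₀ C) (h2 : ∀ u ∈ C, IsOpen u ∧ Disjoint (closure u) t) :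
    HasSeparatingCover s t := by
  obtain ⟨u, hu⟩ := (hC.insert ∅).exists_eq_range (insert_nonempty _ _)
  refine ⟨u, ?_, ?_⟩
  · intro x hx
    obtain ⟨c, hc, hxc⟩ := h1 hx
    have : c ∈ range u := hu ▸ mem_insert_of_mem _ hc
    obtain ⟨n, rfl⟩ := this
    exact mem_iUnion.2 ⟨n, hxc⟩
  · intro n
    have : u n ∈ insert ∅ C := hu ▸ mem_range_self n
    rcases this with h | h
    · rw [h]; simp
    · exact h2 _ h

/-- Covers along a line. -/
theorem line (hL : Catch L) {F G : Set (Sp L × Sp L)} (hF : IsClosed F) (hG : IsClosed G)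
    (h : Disjoint F G) (w : Sp L) : ∃ C : Set (Set (Sp L × Sp L)), C.Countable ∧
      (∀ z, (w, z) ∈ F → ∃ c ∈ C, (w, z) ∈ c) ∧ ∀ c ∈ C, IsClopen c ∧ Disjoint c G := by
  classical
  let G' : ℕ → Set (Sp L) := fun n => Prod.snd '' (G ∩ U w n ×ˢ univ)
  have hG' : ∀ n, IsClosed (G' n) := by
    intro n
    have : CompactSpace (U w n) := isCompact_iff_compactSpace.1 (isCompact_U w n)
    have h1 : IsClosedMap (Prod.snd : (U w n) × Sp L → Sp L) := isClosedMap_snd_of_compactSpace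
    have h2 : IsClosed ((fun p : (U w n) × Sp L => ((p.1.1, p.2) : Sp L × Sp L)) ⁻¹' G) :=
      hG.preimage (by fun_prop)
    have h3 := h1 _ h2
    convert h3 using 1
    ext z
    constructor
    · rintro ⟨p, ⟨hp1, hp2⟩, rfl⟩
      exact ⟨(⟨p.1, hp2.1⟩, p.2), hp1, rfl⟩
    · rintro ⟨p, hp, rfl⟩
      exact ⟨(p.1.1, p.2), ⟨hp, p.1.2, mem_univ _⟩, rfl⟩
  let F' : ℕ → Set (Sp L) := fun n => Nat.casesOn n ((fun z => (w, z)) ⁻¹' F) G'
  have hF' : ∀ n, IsClosed (F' n) := by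
    rintro (_ | n)
    · exact hF.preimage (by fun_prop)
    · exact hG' n
  have h0 : (⋂ n, F' n) = ∅ := by
    rw [eq_empty_iff_forall_notMem]
    intro z hz
    rw [mem_iInter] at hz
    have hz0 : (w, z) ∈ F := hz 0
    have hz1 : (w, z) ∈ G := by
      rw [← hG.closure_eq, mem_closure_iff_nhds]
      intro W hW
      obtain ⟨A, hA, B, hB, hAB⟩ := mem_nhds_prod_iff.1 hW
      obtain ⟨a, ha⟩ := mem_nhds_iff'.1 hA
      obtain ⟨p, ⟨hp1, hp2⟩, hp3⟩ := hz (a + 1)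
      refine ⟨p, hAB ⟨ha hp2.1, ?_⟩, hp1⟩
      rw [hp3]
      exact mem_of_mem_nhds hB
    exact disjoint_left.1 h hz0 hz1
  have hK := countable_cl0 hL F' hF' h0
  have hbox : ∀ z, ∃ n, (w, z) ∈ F → Disjoint (U w n ×ˢ U z n) G := by
    intro z
    by_cases hz : (w, z) ∈ F
    · have h1 : Gᶜ ∈ 𝓝 (w, z) := hG.isOpen_compl.mem_nhds (disjoint_left.1 h hz)
      obtain ⟨A, hA, B, hB, hAB⟩ := mem_nhds_prod_iff.1 h1
      obtain ⟨a, ha⟩ := mem_nhds_iff'.1 hA
      obtain ⟨b, hb⟩ := mem_nhds_iff'.1 hB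
      refine ⟨max a b, fun _ => disjoint_left.2 ?_⟩
      rintro p ⟨hp1, hp2⟩
      exact hAB ⟨ha (U_anti _ (le_max_left a b) hp1), hb (U_anti _ (le_max_right a b) hp2)⟩
    · exact ⟨0, fun h => absurd h hz⟩
  choose a ha using hbox
  refine ⟨{c | Disjoint c G ∧ c ∈ range (fun x : ℕ × ((Σ n : ℕ, Fin n → Al) × Bool) =>
      U w x.1 ×ˢ cyl (L := L) x.2)} ∪
    (fun z => U w (a z) ×ˢ U z (a z)) '' ((⋂ n, cl0 (F' n)) ∩ {z | (w, z) ∈ F}), ?_, ?_, ?_⟩
  · exact ((countable_range _).mono fun c hc => hc.2).union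
      ((hK.mono inter_subset_left).image _)
  · intro z hz
    by_cases hzK : z ∈ ⋂ n, cl0 (F' n)
    · exact ⟨_, Or.inr ⟨z, ⟨hzK, hz⟩, rfl⟩, self_mem _ _, self_mem _ _⟩
    · rw [mem_iInter, not_forall] at hzK
      obtain ⟨n, hn⟩ := hzK
      rcases n with _ | n
      · exact absurd (subset_cl0 _ (show z ∈ F' 0 from hz)) hn
      · obtain ⟨c, hc1, hc2⟩ := exists_cyl z hn
        refine ⟨_, Or.inl ⟨?_, (n, c), rfl⟩, self_mem _ _, hc1⟩
        rw [disjoint_left]
        rintro p ⟨hp1, hp2⟩ hpG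
        exact disjoint_left.1 hc2 hp2 ⟨p, ⟨hpG, hp1, mem_univ _⟩, rfl⟩
  · rintro c (⟨h1, ⟨n, c⟩, rfl⟩ | ⟨z, ⟨_, hz⟩, rfl⟩)
    · exact ⟨(isClopen_U _ _).prod (isClopen_cyl _), h1⟩
    · exact ⟨(isClopen_U _ _).prod (isClopen_U _ _), ha z hz⟩

theorem hasSepCover (hL : Catch L) {F G : Set (Sp L × Sp L)} (hF : IsClosed F) (hG : IsClosed G)
    (h : Disjoint F G) : HasSeparatingCover F G := by
  classical
  have hK : ∃ Y : Set (E Q), Y.Countable ∧ ∀ p : D Q × D Q, J p ∈ closure (J '' (F : Set (D Q × D Q))) ∩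
      closure (J '' (G : Set (D Q × D Q))) → p.1.1 ∈ Y ∨ p.2.1 ∈ Y := by
    by_contra hcon
    push Not at hcon
    have hf : Fat (Q := Q) (J ⁻¹' (closure (J '' (F : Set (D Q × D Q))) ∩
      closure (J '' (G : Set (D Q × D Q))))) := fun Y hY => by
        obtain ⟨p, hp, h1, h2⟩ := hcon Y hY
        exact ⟨p, hp, h1, h2⟩
    obtain ⟨p, hp1, hp2⟩ := catch' hL (fun n => if n = 0 then F else G)
      (isClosed_closure.inter isClosed_closure) hf
    have h1 : p ∈ F := by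
      have := hp2 0
      simp only [if_true] at this
      rw [hF.closure_eq] at this
      exact this hp1.1
    have h2 : p ∈ G := by
      have := hp2 1
      simp only [one_ne_zero, if_false] at this
      rw [hG.closure_eq] at this
      exact this hp1.2
    exact disjoint_left.1 h h1 h2
  obtain ⟨Y, hY, hYK⟩ := hK
  choose A hA1 hA2 hA3 using line hL hF hG h
  have hsw : Continuous (Prod.swap : Sp L × Sp L → Sp L × Sp L) := continuous_swap
  have hFs : IsClosed (Prod.swap ⁻¹' F) := hF.preimage hsw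
  have hGs : IsClosed (Prod.swap ⁻¹' G) := hG.preimage hsw
  choose B hB1 hB2 hB3 using line hL hFs hGs (h.preimage _)
  let YD : Set (Sp L) := {w | (e w).1 ∈ Y}
  have hYD : YD.Countable := by
    have h1 : YD ⊆ (fun y : E Q × Bool => (y : D Q)) '' (Y ×ˢ univ) := by
      intro x hx
      exact ⟨x, ⟨hx, mem_univ _⟩, rfl⟩
    exact ((hY.prod countable_univ).image _).mono h1
  let Jc : Sp L × Sp L → M0 Q := fun p => J (e p.1, e p.2)
  refine sepCover (C := ((fun V => Jc ⁻¹' V) '' {V | V ∈ countableBasis (M0 Q) ∧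
      Disjoint (closure V) (closure (J '' (G : Set (D Q × D Q))))}) ∪
    ((⋃ w ∈ YD, A w) ∪ ⋃ w ∈ YD, (fun c => Prod.swap ⁻¹' c) '' B w)) ?_ ?_ ?_
  · refine Countable.union (((countable_countableBasis _).mono fun V hV => hV.1).image _)
      (Countable.union (hYD.biUnion fun w _ => hA1 w) (hYD.biUnion fun w _ => (hB1 w).image _))
  · intro p hp
    by_cases hpG : Jc p ∈ closure (J '' (G : Set (D Q × D Q)))
    · have hpF : Jc p ∈ closure (J '' (F : Set (D Q × D Q))) := subset_closure ⟨p, hp, rfl⟩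
      rcases hYK p ⟨hpF, hpG⟩ with h1 | h1
      · obtain ⟨c, hc1, hc2⟩ := hA2 p.1 p.2 hp
        exact ⟨c, Or.inr (Or.inl (mem_biUnion (x := p.1) h1 hc1)), hc2⟩
      · obtain ⟨c, hc1, hc2⟩ := hB2 p.2 p.1 hp
        exact ⟨_, Or.inr (Or.inr (mem_biUnion (x := p.2) h1 ⟨c, hc1, rfl⟩)), hc2⟩
    · obtain ⟨V, hV1, hV2, hV3⟩ := (isBasis_countableBasis (M0 Q)).exists_closure_subset
        (isClosed_closure.isOpen_compl.mem_nhds hpG)
      exact ⟨_, Or.inl ⟨V, ⟨hV1, disjoint_compl_right_iff_subset.2 hV3 |>.mono_right (by simp)⟩, rfl⟩, hV2⟩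
  · rintro c (⟨V, ⟨hV1, hV2⟩, rfl⟩ | h1 | h1)
    · have hVo : IsOpen V := (isBasis_countableBasis (M0 Q)).isOpen hV1
      refine ⟨hVo.preimage continuous_J, ?_⟩
      have h2 : closure (Jc ⁻¹' V) ⊆ Jc ⁻¹' closure V :=
        closure_minimal (preimage_mono subset_closure)
          (isClosed_closure.preimage continuous_J)
      rw [disjoint_left]
      intro p hp hpG
      exact disjoint_left.1 hV2 (h2 hp) (subset_closure ⟨p, hpG, rfl⟩)
    · obtain ⟨w, hw, hc⟩ := mem_iUnion₂.1 h1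
      obtain ⟨h2, h3⟩ := hA3 w c hc
      exact ⟨h2.2, by rw [h2.1.closure_eq]; exact h3⟩
    · obtain ⟨w, hw, c', hc', rfl⟩ := mem_iUnion₂.1 h1
      obtain ⟨h2, h3⟩ := hB3 w c' hc'
      have h4 := h2.preimage hsw
      refine ⟨h4.2, ?_⟩
      dsimp only
      rw [h4.1.closure_eq, disjoint_left]
      intro p hp hpG
      exact disjoint_left.1 h3 hp (by simpa using hpG)

theorem normal (hL : Catch L) : NormalSpace (Sp L × Sp L) :=
  ⟨fun _ _ hs ht hd => hasSeparatingCovers_iff_separatedNhds.1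
    ⟨hasSepCover hL hs ht hd, hasSepCover hL ht hs hd.symm⟩⟩

instance : CompletelyRegularSpace (Sp L) where
  completely_regular := by
    intro x K hK hx
    obtain ⟨n, hn⟩ := hK.isOpen_compl x hx
    classical
    refine ⟨fun y => if y ∈ U x n then 0 else 1, ?_, ?_, ?_⟩
    · have h1 : IsLocallyConstant (fun y : Sp L => if y ∈ U x n then (0 : unitInterval) else 1) := by
        rw [IsLocallyConstant.iff_eventually_eq]
        intro y
        by_cases hy : y ∈ U x n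
        · filter_upwards [(isOpen_U x n).mem_nhds hy] with z hz
          rw [if_pos hz, if_pos hy]
        · filter_upwards [(isClosed_U x n).isOpen_compl.mem_nhds hy] with z hz
          rw [if_neg hz, if_neg hy]
      exact h1.continuous
    · simp [self_mem]
    · intro y hy
      have : y ∉ U x n := fun h => hn h hy
      simp [this]

instance t35 : T35Space (Sp L) where

end Pool.Agent.U540.FD
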